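import Pool.Agent.Helper79_WRA.Basic

/-!
WRA, module EXT, part B: cycles and a trace formula.
-/

open scoped BigOperators

noncomputable section

namespace Pool.Agent.Helper79_WRA.H33

open Pool.Agent.Helper51_AWC

section cyc

variable {K Δ : Type} [Group K] [MulAction K Δ] {h : K} {B : Finset Δ}

/-- induction along the cycles of `h` -/
theorem cyc_ind [Finite K] (hB : IsBase h B) (Q : Δ → Prop) (h1 : ∀ b ∈ B, Q b)
    (h2 : ∀ j, j ∉ B → Q (h⁻¹ • j) → Q j) : ∀ j, Q j := by
  intro j
  obtain ⟨b, ⟨hb, hbo⟩, -⟩ := hB j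
  have hj : j ∈ MulAction.orbit (Subgroup.zpowers h) b := by
    rw [← MulAction.orbit_eq_iff] at hbo
    rw [hbo]; exact MulAction.mem_orbit_self j
  obtain ⟨⟨z, hz⟩, rfl⟩ := hj
  obtain ⟨i, rfl⟩ : ∃ i : ℕ, h ^ i = z := by
    have := mem_powers_iff_mem_zpowers.2 hz
    exact this
  show Q (h ^ i • b)
  clear hbo hz
  induction i with
  | zero => rw [pow_zero, one_smul]; exact h1 b hb
  | succ i ih =>
    by_cases hm : h ^ (i + 1) • b ∈ B
    · exact h1 _ hm
    · apply h2 _ hm
      rw [pow_succ', mul_smul, inv_smul_smul]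
      exact ih

/-- the base point of the cycle -/
def bp (hB : IsBase h B) (j : Δ) : Δ := (hB j).choose

theorem bp_mem (hB : IsBase h B) (j : Δ) : bp hB j ∈ B := (hB j).choose_spec.1.1

theorem bp_orb (hB : IsBase h B) (j : Δ) :
    bp hB j ∈ MulAction.orbit (Subgroup.zpowers h) j := (hB j).choose_spec.1.2

theorem bp_uniq (hB : IsBase h B) {j b : Δ} (h1 : b ∈ B)
    (h2 : b ∈ MulAction.orbit (Subgroup.zpowers h) j) : b = bp hB j :=
  (hB j).choose_spec.2 b ⟨h1, h2⟩

theorem bp_self (hB : IsBase h B) {b : Δ} (h1 : b ∈ B) : bp hB b = b :=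
  (bp_uniq hB h1 (MulAction.mem_orbit_self b)).symm

theorem bp_inv (hB : IsBase h B) (j : Δ) : bp hB (h⁻¹ • j) = bp hB j := by
  apply bp_uniq hB (bp_mem hB _)
  have h1 := bp_orb hB (h⁻¹ • j)
  have h2 : h⁻¹ • j ∈ MulAction.orbit (Subgroup.zpowers h) j :=
    ⟨⟨h⁻¹, Subgroup.inv_mem _ (Subgroup.mem_zpowers h)⟩, rfl⟩
  rw [← MulAction.orbit_eq_iff] at h2
  rw [h2] at h1
  exact h1

theorem trace_cycles [Finite K] [Fintype Δ] [DecidableEq Δ] (hB : IsBase h B) (N : Δ → ℕ)
    (hN : ∀ j, N (h⁻¹ • j) = N j) (F : Δ → ℕ → ℕ → ℂ)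
    (hF : ∀ j, j ∉ B → ∀ a c, a < N j → c < N j → F j a c = if a = c then 1 else 0) :
    ∑ p ∈ Fintype.piFinset (fun j => Finset.range (N j)), ∏ j, F j (p j) (p (h⁻¹ • j)) =
      ∏ b ∈ B, ∑ a ∈ Finset.range (N b), F b a a := by
  have hNb : ∀ j, N (bp hB j) = N j := by
    apply cyc_ind hB
    · intro b hb
      rw [bp_self hB hb]
    · intro j _ h1
      rw [← bp_inv hB j, h1, hN]
  -- the right-hand side
  have hR : ∏ b ∈ B, ∑ a ∈ Finset.range (N b), F b a a =
      ∑ q ∈ Fintype.piFinset (fun j => if j ∈ B then Finset.range (N j) else {0}),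
        ∏ j, (if j ∈ B then F j (q j) (q j) else 1) := by
    rw [← Finset.prod_univ_sum
      (fun j => if j ∈ B then Finset.range (N j) else {0})
      (fun j a => if j ∈ B then F j a a else 1)]
    rw [← Finset.prod_subset (Finset.subset_univ B)]
    · apply Finset.prod_congr rfl
      intro b hb
      simp only [if_pos hb]
    · intro j _ hj
      simp only [if_neg hj, Finset.sum_singleton]
  rw [hR]
  have hL : ∑ p ∈ Fintype.piFinset (fun j => Finset.range (N j)),
      ∏ j, F j (p j) (p (h⁻¹ • j)) =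
      ∑ p ∈ (Fintype.piFinset (fun j => Finset.range (N j))).filter
        (fun p => ∀ j, j ∉ B → p j = p (h⁻¹ • j)), ∏ j, F j (p j) (p (h⁻¹ • j)) := by
    symm
    apply Finset.sum_filter_of_ne
    intro p hp hne j hj
    by_contra hcon
    apply hne
    apply Finset.prod_eq_zero (Finset.mem_univ j)
    rw [Fintype.mem_piFinset] at hp
    have h1 := Finset.mem_range.1 (hp j)
    have h2 := Finset.mem_range.1 (hp (h⁻¹ • j))
    rw [hN] at h2
    rw [hF j hj _ _ h1 h2, if_neg hcon]
  rw [hL]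
  apply Finset.sum_nbij' (fun p j => if j ∈ B then p j else 0) (fun q j => q (bp hB j))
  · intro p hp
    rw [Finset.mem_filter, Fintype.mem_piFinset] at hp
    rw [Fintype.mem_piFinset]
    intro j
    by_cases hj : j ∈ B
    · simp only [if_pos hj]; exact hp.1 j
    · simp only [if_neg hj, Finset.mem_singleton]
  · intro q hq
    rw [Fintype.mem_piFinset] at hq
    rw [Finset.mem_filter, Fintype.mem_piFinset]
    constructor
    · intro j
      have := hq (bp hB j)
      rw [if_pos (bp_mem hB j), hNb] at this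
      exact this
    · intro j _
      show q (bp hB j) = q (bp hB (h⁻¹ • j))
      rw [bp_inv]
  · intro p hp
    rw [Finset.mem_filter] at hp
    funext j
    show (if bp hB j ∈ B then p (bp hB j) else 0) = p j
    rw [if_pos (bp_mem hB j)]
    revert j
    apply cyc_ind hB
    · intro b hb
      rw [bp_self hB hb]
    · intro j hj h1
      rw [← bp_inv hB j, h1, hp.2 j hj]
  · intro q hq
    rw [Fintype.mem_piFinset] at hq
    funext j
    show (if j ∈ B then q (bp hB j) else 0) = q j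
    by_cases hj : j ∈ B
    · rw [if_pos hj, bp_self hB hj]
    · rw [if_neg hj]
      have := hq j
      rw [if_neg hj, Finset.mem_singleton] at this
      exact this.symm
  · intro p hp
    rw [Finset.mem_filter, Fintype.mem_piFinset] at hp
    have hpb : ∀ j, p (bp hB j) = p j := by
      apply cyc_ind hB
      · intro b hb
        rw [bp_self hB hb]
      · intro j hj h1
        rw [← bp_inv hB j, h1, hp.2 j hj]
    apply Finset.prod_congr rfl
    intro j _
    by_cases hj : j ∈ B
    · simp only [if_pos hj]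
      rw [← hpb (h⁻¹ • j), bp_inv, hpb]
    · rw [if_neg hj]
      have h1 := Finset.mem_range.1 (hp.1 j)
      rw [← hp.2 j hj, hF j hj _ _ h1 h1, if_pos rfl]

end cyc

/-! ### the groupoid -/

section car

variable {G Δ : Type} [Group G]

/-- `g` carries the datum at `i` to the datum at `j` -/
def Car (v : Finset (Δ → Subgroup G)) (α : Δ → G → ℂ) (g : G) (i j : Δ) : Prop :=
  (∀ R ∈ v, conjS g (R i) = R j) ∧ ∀ y, α j (g * y * g⁻¹) = α i y

variable {v : Finset (Δ → Subgroup G)} {α : Δ → G → ℂ}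

theorem car_one (j : Δ) : Car v α 1 j j := by
  refine ⟨fun R _ => conjS_one _, fun y => ?_⟩
  rw [one_mul, inv_one, mul_one]

theorem car_mul {g g' : G} {i j k : Δ} (h : Car v α g i j) (h' : Car v α g' j k) :
    Car v α (g' * g) i k := by
  refine ⟨fun R hR => ?_, fun y => ?_⟩
  · rw [← conjS_conjS, h.1 R hR, h'.1 R hR]
  · rw [← h.2 y, ← h'.2]
    congr 1
    group

theorem car_inv {g : G} {i j : Δ} (h : Car v α g i j) : Car v α g⁻¹ j i := by
  refine ⟨fun R hR => ?_, fun y => ?_⟩
  · rw [← h.1 R hR, conjS_conjS, inv_mul_cancel, conjS_one]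
  · rw [← h.2]
    congr 1
    group

theorem car_self_iff (hα : IsChars v α) {g : G} {j : Δ} : Car v α g j j ↔ g ∈ colStab v j := by
  rw [mem_colStab]
  constructor
  · intro h; exact h.1
  · intro h
    refine ⟨h, fun y => ?_⟩
    have hg : g ∈ colStab v j := mem_colStab.2 h
    by_cases hy : y ∈ colStab v j
    · exact irr_conj (hα j).2 (⟨y, hy⟩ : colStab v j) ⟨g, hg⟩
    · rw [(hα j).1 y hy, (hα j).1]
      intro h1
      apply hy
      have := (colStab v j).mul_mem ((colStab v j).mul_mem ((colStab v j).inv_mem hg) h1) hg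
      have e : g⁻¹ * (g * y * g⁻¹) * g = y := by group
      rwa [e] at this

theorem car_colStab {g : G} {i j : Δ} (h : Car v α g i j) {y : G} (hy : y ∈ colStab v i) :
    g * y * g⁻¹ ∈ colStab v j := by
  rw [mem_colStab] at hy ⊢
  intro R hR
  have e2 : g * y * g⁻¹ * g = g * y := by group
  rw [← h.1 R hR, conjS_conjS, e2, ← conjS_conjS, hy R hR]

theorem mem_stX_iff {K : Type} [Group K] [MulAction K Δ] {t : Wreath G Δ K} :
    t ∈ stX K v α ↔ ∀ j, Car v α (t.f j) (t.s⁻¹ • j) j := by
  rw [mem_stX]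
  constructor
  · intro h j
    exact ⟨fun R hR => h.1 R hR j, h.2 j⟩
  · intro h
    exact ⟨fun R hR j => (h j).1 R hR, fun j => (h j).2⟩

/-- the relation `i ~ j` -/
def relS (v : Finset (Δ → Subgroup G)) (α : Δ → G → ℂ) : Setoid Δ where
  r i j := ∃ g, Car v α g i j
  iseqv := ⟨fun j => ⟨1, car_one j⟩, fun ⟨g, h⟩ => ⟨g⁻¹, car_inv h⟩,
    fun ⟨_, h⟩ ⟨_, h'⟩ => ⟨_, car_mul h h'⟩⟩

/-- the chosen representative -/
def rp (v : Finset (Δ → Subgroup G)) (α : Δ → G → ℂ) (j : Δ) : Δ :=
  (Quotient.mk (relS v α) j).out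

theorem rp_rel (j : Δ) : ∃ g, Car v α g (rp v α j) j :=
  Quotient.exact (s := relS v α) (Quotient.out_eq _)

theorem rp_eq {g : G} {i j : Δ} (h : Car v α g i j) : rp v α i = rp v α j := by
  unfold rp
  congr 1
  exact Quotient.sound (s := relS v α) ⟨g, h⟩

/-- the chosen transporter -/
def kp (v : Finset (Δ → Subgroup G)) (α : Δ → G → ℂ) (j : Δ) : G := (rp_rel (v := v) (α := α) j).choose

theorem kp_car (j : Δ) : Car v α (kp v α j) (rp v α j) j := (rp_rel (v := v) (α := α) j).choose_spec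

end car

end Pool.Agent.Helper79_WRA.H33
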