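import Pool.Agent.Helper33_WRA.ExtA
import Pool.Agent.Helper33_WRA.ExtB
import Pool.Agent.Helper79_WRA.Stmt

/-!
WRA, module EXT: the canonical extension exists.
-/

open scoped BigOperators

noncomputable section

namespace Pool.Agent.Helper79_WRA.H33

open Pool.Agent.Helper51_AWC

section main

variable {G Δ K : Type} [Group G] [Group K] [MulAction K Δ]
  {v : Finset (Δ → Subgroup G)} {α : Δ → G → ℂ}

/-- the coordinates of `t` read at the representatives -/
def DD (v : Finset (Δ → Subgroup G)) (α : Δ → G → ℂ) (t : Wreath G Δ K) (j : Δ) : G :=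
  (kp v α j)⁻¹ * t.f j * kp v α (t.s⁻¹ • j)

theorem stX_rp {t : Wreath G Δ K} (ht : t ∈ stX K v α) (j : Δ) :
    rp v α (t.s⁻¹ • j) = rp v α j := rp_eq (mem_stX_iff.1 ht j)

theorem stX_rp' {t : Wreath G Δ K} (ht : t ∈ stX K v α) (j : Δ) :
    rp v α (t.s • j) = rp v α j := by
  have := stX_rp ht (t.s • j)
  rw [inv_smul_smul] at this
  exact this.symm

theorem DD_car {t : Wreath G Δ K} (ht : t ∈ stX K v α) (j : Δ) :
    Car v α (DD v α t j) (rp v α j) (rp v α j) := by
  have h1 := kp_car (v := v) (α := α) (t.s⁻¹ • j)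
  rw [stX_rp ht] at h1
  have h2 := car_mul (car_mul h1 (mem_stX_iff.1 ht j)) (car_inv (kp_car (v := v) (α := α) j))
  unfold DD
  rw [mul_assoc]
  exact h2

theorem DD_mem (hα : IsChars v α) {t : Wreath G Δ K} (ht : t ∈ stX K v α) (j : Δ) :
    DD v α t j ∈ colStab v (rp v α j) := (car_self_iff hα).1 (DD_car ht j)

theorem DD_mul (t s : Wreath G Δ K) (j : Δ) :
    DD v α (t * s) j = DD v α t j * DD v α s (t.s⁻¹ • j) := by
  unfold DD
  rw [Wreath.mul_f, Wreath.mul_s, mul_inv_rev, mul_smul]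
  group

theorem DD_one (j : Δ) : DD v α (1 : Wreath G Δ K) j = 1 := by
  unfold DD
  rw [Wreath.one_f, Wreath.one_s, inv_one, one_smul, mul_one, inv_mul_cancel]

variable [Fintype Δ] [DecidableEq Δ]

/-- the matrix coefficients of the extension -/
def MM (c : ∀ j, Coef (colStab v j) (α j)) (t : Wreath G Δ K) (p q : Δ → ℕ) : ℂ :=
  ∏ j, (c (rp v α j)).B (DD v α t j) (p j) (q (t.s⁻¹ • j))

/-- the index set -/
def PP (c : ∀ j, Coef (colStab v j) (α j)) : Finset (Δ → ℕ) :=
  Fintype.piFinset (fun j => Finset.range (c (rp v α j)).n)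

theorem mem_PP {c : ∀ j, Coef (colStab v j) (α j)} {p : Δ → ℕ} :
    p ∈ PP c ↔ ∀ j, p j < (c (rp v α j)).n := by
  unfold PP
  rw [Fintype.mem_piFinset]
  simp only [Finset.mem_range]

theorem MM_mul (hα : IsChars v α) (c : ∀ j, Coef (colStab v j) (α j)) {t s : Wreath G Δ K}
    (ht : t ∈ stX K v α) (hs : s ∈ stX K v α) (p q : Δ → ℕ) :
    MM c (t * s) p q = ∑ r ∈ PP c, MM c t p r * MM c s r q := by
  have h1 : MM c (t * s) p q = ∑ r ∈ PP c, ∏ j,
      ((c (rp v α j)).B (DD v α t j) (p j) (r j) *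
        (c (rp v α j)).B (DD v α s (t.s⁻¹ • j)) (r j) (q (s.s⁻¹ • t.s⁻¹ • j))) := by
    unfold PP MM
    rw [← Finset.prod_univ_sum (fun j => Finset.range (c (rp v α j)).n)
      (fun j a => (c (rp v α j)).B (DD v α t j) (p j) a *
        (c (rp v α j)).B (DD v α s (t.s⁻¹ • j)) a (q (s.s⁻¹ • t.s⁻¹ • j)))]
    apply Finset.prod_congr rfl
    intro j _
    rw [DD_mul, Wreath.mul_s, mul_inv_rev, mul_smul]
    apply (c (rp v α j)).mul _ (DD_mem hα ht j)
    have := DD_mem hα hs (t.s⁻¹ • j)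
    rw [stX_rp ht] at this
    exact this
  rw [h1]
  apply Finset.sum_nbij' (fun r j => r (t.s • j)) (fun r j => r (t.s⁻¹ • j))
  · intro r hr
    rw [mem_PP] at hr ⊢
    intro j
    have := hr (t.s • j)
    rw [stX_rp' ht] at this
    exact this
  · intro r hr
    rw [mem_PP] at hr ⊢
    intro j
    have := hr (t.s⁻¹ • j)
    rw [stX_rp ht] at this
    exact this
  · intro r _
    funext j
    show r (t.s • t.s⁻¹ • j) = r j
    rw [smul_inv_smul]
  · intro r _
    funext j
    show r (t.s⁻¹ • t.s • j) = r j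
    rw [inv_smul_smul]
  · intro r _
    rw [Finset.prod_mul_distrib]
    congr 1
    · unfold MM
      apply Finset.prod_congr rfl
      intro j _
      show _ = (c (rp v α j)).B (DD v α t j) (p j) (r (t.s • t.s⁻¹ • j))
      rw [smul_inv_smul]
    · unfold MM
      rw [← Equiv.prod_comp (MulAction.toPerm (t.s⁻¹) : Equiv.Perm Δ) (fun i =>
        (c (rp v α i)).B (DD v α s i) (r (t.s • i)) (q (s.s⁻¹ • i)))]
      apply Finset.prod_congr rfl
      intro j _
      show _ = (c (rp v α (t.s⁻¹ • j))).B (DD v α s (t.s⁻¹ • j)) (r (t.s • t.s⁻¹ • j))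
        (q (s.s⁻¹ • t.s⁻¹ • j))
      rw [smul_inv_smul, stX_rp ht]

theorem MM_one (c : ∀ j, Coef (colStab v j) (α j)) {p q : Δ → ℕ} (hp : p ∈ PP c)
    (hq : q ∈ PP c) : MM c (1 : Wreath G Δ K) p q = if p = q then 1 else 0 := by
  rw [mem_PP] at hp hq
  unfold MM
  simp only [DD_one, Wreath.one_s, inv_one, one_smul]
  split_ifs with h
  · subst h
    apply Finset.prod_eq_one
    intro j _
    rw [(c (rp v α j)).one _ _ (hp j) (hp j), if_pos rfl]
  · obtain ⟨j, hj⟩ := Function.ne_iff.1 h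
    apply Finset.prod_eq_zero (Finset.mem_univ j)
    rw [(c (rp v α j)).one _ _ (hp j) (hq j), if_neg hj]

open Classical in
/-- the character -/
def XX (c : ∀ j, Coef (colStab v j) (α j)) (t : Wreath G Δ K) : ℂ :=
  if t ∈ stX K v α then ∑ p ∈ PP c, MM c t p p else 0

theorem XX_of (c : ∀ j, Coef (colStab v j) (α j)) {t : Wreath G Δ K} (ht : t ∈ stX K v α) :
    XX c t = ∑ p ∈ PP c, MM c t p p := by
  unfold XX; rw [if_pos ht]

theorem XX_not (c : ∀ j, Coef (colStab v j) (α j)) {t : Wreath G Δ K} (ht : t ∉ stX K v α) :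
    XX c t = 0 := by
  unfold XX; rw [if_neg ht]

theorem XX_comm (hα : IsChars v α) (c : ∀ j, Coef (colStab v j) (α j)) {t s : Wreath G Δ K}
    (ht : t ∈ stX K v α) (hs : s ∈ stX K v α) : XX c (t * s) = XX c (s * t) := by
  rw [XX_of c ((stX K v α).mul_mem ht hs), XX_of c ((stX K v α).mul_mem hs ht)]
  simp only [MM_mul hα c ht hs, MM_mul hα c hs ht]
  rw [Finset.sum_comm]
  apply Finset.sum_congr rfl
  intro p _
  apply Finset.sum_congr rfl
  intro q _
  rw [mul_comm]

theorem XX_conj (hα : IsChars v α) (c : ∀ j, Coef (colStab v j) (α j)) {x y : Wreath G Δ K}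
    (hx : x ∈ stX K v α) (hy : y ∈ stX K v α) : XX c (y * x * y⁻¹) = XX c x := by
  rw [XX_comm hα c ((stX K v α).mul_mem hy hx) ((stX K v α).inv_mem hy)]
  congr 1
  group

theorem base_mem_stX (hα : IsChars v α) {y : Δ → G} :
    (Wreath.base y : Wreath G Δ K) ∈ stX K v α ↔ ∀ j, y j ∈ colStab v j := by
  rw [mem_stX_iff]
  simp only [Wreath.base_f, Wreath.base_s, inv_one, one_smul]
  exact forall_congr' fun j => car_self_iff hα

theorem XX_base (hα : IsChars v α) (c : ∀ j, Coef (colStab v j) (α j)) (y : Δ → G) :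
    XX c (Wreath.base y : Wreath G Δ K) = ∏ j, α j (y j) := by
  by_cases h : ∀ j, y j ∈ colStab v j
  · have hm : (Wreath.base y : Wreath G Δ K) ∈ stX K v α := (base_mem_stX hα).2 h
    rw [XX_of c hm]
    unfold MM PP
    simp only [Wreath.base_s, inv_one, one_smul]
    rw [← Finset.prod_univ_sum (fun j => Finset.range (c (rp v α j)).n)
      (fun j a => (c (rp v α j)).B (DD v α (Wreath.base y : Wreath G Δ K) j) a a)]
    apply Finset.prod_congr rfl
    intro j _
    rw [(c (rp v α j)).tr _ (DD_mem hα hm j)]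
    rw [← (car_inv (kp_car (v := v) (α := α) j)).2 (y j)]
    unfold DD
    rw [Wreath.base_f, Wreath.base_s, inv_one, one_smul, inv_inv]
  · rw [XX_not c (fun hm => h ((base_mem_stX hα).1 hm))]
    push Not at h
    obtain ⟨j, hj⟩ := h
    symm
    apply Finset.prod_eq_zero (Finset.mem_univ j)
    exact (hα j).1 _ hj

theorem XX_mem [Finite G] [Finite K] (hα : IsChars v α)
    (c : ∀ j, Coef (colStab v j) (α j)) : XX c ∈ IrrS (stX K v α) := by
  classical
  refine ⟨fun g hg => XX_not c hg, ?_⟩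
  have hfT : Fintype (stX K v α) := Fintype.ofFinite _
  have hfY : ∀ j, Fintype (colStab v j) := fun j => Fintype.ofFinite _
  let ι : (∀ j, colStab v j) →* stX K v α :=
    { toFun := fun y => ⟨Wreath.base (fun j => (y j : G)), (base_mem_stX hα).2 fun j => (y j).2⟩
      map_one' := rfl
      map_mul' := by
        intro x y
        apply Subtype.ext
        exact map_mul (Wreath.base : (Δ → G) →* Wreath G Δ K) _ _ }
  refine mem_Irr_of_coeff_restrict ι (X := PP c)
    (fun t p q => MM c (t : Wreath G Δ K) p q) ?_ ?_ _ ?_ ?_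
  · intro p q
    have h1 := MM_one (K := K) c p.2 q.2
    rw [← Subgroup.coe_one (stX K v α)] at h1
    rw [h1]
    by_cases h : p = q
    · rw [if_pos h, if_pos (congrArg _ h)]
    · rw [if_neg h, if_neg (fun h' => h (Subtype.ext h'))]
  · intro g h p q
    rw [Subgroup.coe_mul, MM_mul hα c g.2 h.2]
    rw [← Finset.sum_coe_sort (PP c) (fun r => MM c (g : Wreath G Δ K) p r *
      MM c (h : Wreath G Δ K) r q)]
  · intro g
    rw [XX_of c g.2]
    rw [← Finset.sum_coe_sort (PP c) (fun r => MM c (g : Wreath G Δ K) r r)]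
  · have h1 : piChar (fun j => fun x : colStab v j => α j x) ∈ Irr (∀ j, colStab v j) :=
      piChar_mem fun j => (hα j).2
    have h2 : (fun y => XX c ((ι y : stX K v α) : Wreath G Δ K)) =
        piChar (fun j => fun x : colStab v j => α j x) := by
      funext y
      exact XX_base hα c _
    rw [h2]
    exact h1

/-! ### the formula -/

section form

variable {h : K} {B : Finset Δ}

omit [Fintype Δ] in
theorem exists_a0 [Finite K] (hB : IsBase h B) (hh : h ∈ topSt K v α) :
    ∃ a0 : Δ → G, (∀ j, Car v α (a0 j) (bp hB j) j) ∧ ∀ b ∈ B, a0 b = 1 := by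
  have h1 : ∀ j, ∃ g, Car v α g (bp hB j) j := by
    apply cyc_ind hB
    · intro b hb
      rw [bp_self hB hb]
      exact ⟨1, car_one b⟩
    · rintro j _ ⟨g, hg⟩
      obtain ⟨g', hg'⟩ := mem_topSt.1 hh j
      rw [bp_inv] at hg
      exact ⟨g' * g, car_mul hg hg'⟩
  choose a ha using h1
  refine ⟨fun j => if j ∈ B then 1 else a j, fun j => ?_, fun b hb => if_pos hb⟩
  by_cases hj : j ∈ B
  · simp only [if_pos hj]
    rw [bp_self hB hj]
    exact car_one j
  · simp only [if_neg hj]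
    exact ha j

/-- the conjugating part -/
def az (B : Finset Δ) (a0 : Δ → G) (z : Δ → G) (j : Δ) : G := if j ∈ B then 1 else z j * a0 j

/-- the part supported at the base points -/
def yz (B : Finset Δ) (z : Δ → G) (j : Δ) : G := if j ∈ B then z j else 1

/-- the parametrisation -/
def wz (h : K) (B : Finset Δ) (a0 : Δ → G) (z : Δ → G) (j : Δ) : G :=
  az B a0 z j * yz B z j * (az B a0 z (h⁻¹ • j))⁻¹

omit [Fintype Δ] in
theorem wz_conj (a0 z : Δ → G) : (⟨wz h B a0 z, h⟩ : Wreath G Δ K) =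
    Wreath.base (az B a0 z) * ⟨yz B z, h⟩ * (Wreath.base (az B a0 z))⁻¹ := by
  apply Wreath.ext
  · funext i
    rw [Wreath.conj_f]
    simp only [Wreath.base_f, Wreath.base_s, inv_one, one_smul, one_mul, mul_one]
    rfl
  · rw [Wreath.conj_s, Wreath.base_s, one_mul, inv_one, mul_one]

omit [Fintype Δ] in
theorem az_car (hα : IsChars v α) (hB : IsBase h B) {a0 : Δ → G}
    (ha0 : ∀ j, Car v α (a0 j) (bp hB j) j) {z : Δ → G} (hz : ∀ j, z j ∈ colStab v j) (j : Δ) :
    Car v α (az B a0 z j) (bp hB j) j := by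
  unfold az
  split_ifs with hj
  · rw [bp_self hB hj]; exact car_one j
  · exact car_mul (ha0 j) ((car_self_iff hα).2 (hz j))

omit [Fintype Δ] in
theorem yz_car (hα : IsChars v α) (hB : IsBase h B) {z : Δ → G}
    (hz : ∀ j, z j ∈ colStab v j) (j : Δ) :
    Car v α (yz B z j) (bp hB j) (bp hB j) := by
  unfold yz
  split_ifs with hj
  · rw [bp_self hB hj]; exact (car_self_iff hα).2 (hz j)
  · exact car_one _

omit [Fintype Δ] in
theorem wz_mem (hα : IsChars v α) (hB : IsBase h B) {a0 : Δ → G}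
    (ha0 : ∀ j, Car v α (a0 j) (bp hB j) j) {z : Δ → G} (hz : ∀ j, z j ∈ colStab v j) :
    (⟨wz h B a0 z, h⟩ : Wreath G Δ K) ∈ stX K v α := by
  rw [mem_stX_iff]
  intro j
  have h1 := car_inv (az_car hα hB ha0 hz (h⁻¹ • j))
  rw [bp_inv] at h1
  have h2 := car_mul (car_mul h1 (yz_car hα hB hz j)) (az_car hα hB ha0 hz j)
  rw [← mul_assoc] at h2
  exact h2

omit [Fintype Δ] in
theorem wz_inj [Finite K] (hB : IsBase h B) (a0 : Δ → G) :
    Function.Injective (wz h B a0) := by
  intro z z' hzz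
  have h1 : ∀ j, (az B a0 z' j)⁻¹ * az B a0 z j = 1 := by
    apply cyc_ind hB
    · intro b hb
      unfold az
      rw [if_pos hb, if_pos hb, inv_one, mul_one]
    · intro j hj h2
      have h3 := congrFun hzz j
      unfold wz at h3
      have e1 : yz B z j = 1 := if_neg hj
      have e2 : yz B z' j = 1 := if_neg hj
      rw [e1, e2, mul_one, mul_one] at h3
      have h4 : az B a0 z (h⁻¹ • j) = az B a0 z' (h⁻¹ • j) := (inv_mul_eq_one.1 h2).symm
      rw [h4] at h3
      rw [mul_right_cancel h3, inv_mul_cancel]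
  have h2 : ∀ j, az B a0 z j = az B a0 z' j := fun j => (inv_mul_eq_one.1 (h1 j)).symm
  funext j
  by_cases hj : j ∈ B
  · have h3 := congrFun hzz j
    unfold wz at h3
    rw [h2 j, h2 (h⁻¹ • j)] at h3
    have h4 := mul_left_cancel (mul_right_cancel h3)
    unfold yz at h4
    rw [if_pos hj, if_pos hj] at h4
    exact h4
  · have h3 := h2 j
    unfold az at h3
    rw [if_neg hj, if_neg hj] at h3
    exact mul_right_cancel h3

/-- the value of the character at a parametrised element -/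
theorem XX_wz [Finite K] (hα : IsChars v α) (c : ∀ j, Coef (colStab v j) (α j))
    (hB : IsBase h B) {a0 : Δ → G}
    (ha0 : ∀ j, Car v α (a0 j) (bp hB j) j) {z : Δ → G} (hz : ∀ j, z j ∈ colStab v j) :
    XX c (⟨wz h B a0 z, h⟩ : Wreath G Δ K) = ∏ b ∈ B, α b (z b) := by
  have hm := wz_mem hα hB ha0 hz
  let ε : Δ → G := fun j => az B a0 z j * kp v α (bp hB j) * (kp v α j)⁻¹
  let t : Wreath G Δ K := ⟨fun j => kp v α j * ((kp v α (bp hB j))⁻¹ * yz B z j *
    kp v α (bp hB j)) * (kp v α (h⁻¹ • j))⁻¹, h⟩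
  have hεc : ∀ j, Car v α (ε j) j j := by
    intro j
    have h1 := az_car hα hB ha0 hz j
    have h2 := kp_car (v := v) (α := α) (bp hB j)
    rw [rp_eq h1] at h2
    have h3 := car_mul (car_mul (car_inv (kp_car (v := v) (α := α) j)) h2) h1
    rw [← mul_assoc] at h3
    exact h3
  have hε : (Wreath.base ε : Wreath G Δ K) ∈ stX K v α :=
    (base_mem_stX hα).2 fun j => (car_self_iff hα).1 (hεc j)
  have hw : (⟨wz h B a0 z, h⟩ : Wreath G Δ K) = Wreath.base ε * t * (Wreath.base ε)⁻¹ := by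
    apply Wreath.ext
    · funext i
      rw [Wreath.conj_f]
      simp only [Wreath.base_f, Wreath.base_s, inv_one, one_smul, one_mul, mul_one]
      show az B a0 z i * yz B z i * (az B a0 z (h⁻¹ • i))⁻¹ =
        az B a0 z i * kp v α (bp hB i) * (kp v α i)⁻¹ *
          (kp v α i * ((kp v α (bp hB i))⁻¹ * yz B z i * kp v α (bp hB i)) *
            (kp v α (h⁻¹ • i))⁻¹) *
          (az B a0 z (h⁻¹ • i) * kp v α (bp hB (h⁻¹ • i)) * (kp v α (h⁻¹ • i))⁻¹)⁻¹
      rw [bp_inv]
      group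
    · rw [Wreath.conj_s, Wreath.base_s, one_mul, inv_one, mul_one]
  have ht : t ∈ stX K v α := by
    have e : t = (Wreath.base ε)⁻¹ * (⟨wz h B a0 z, h⟩ : Wreath G Δ K) * Wreath.base ε := by
      rw [hw]; group
    rw [e]
    exact (stX K v α).mul_mem ((stX K v α).mul_mem ((stX K v α).inv_mem hε) hm) hε
  rw [hw, XX_conj hα c ht hε, XX_of c ht]
  have hDt : ∀ j, DD v α t j = (kp v α (bp hB j))⁻¹ * yz B z j * kp v α (bp hB j) := by
    intro j
    show (kp v α j)⁻¹ * (kp v α j * ((kp v α (bp hB j))⁻¹ * yz B z j *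
      kp v α (bp hB j)) * (kp v α (h⁻¹ • j))⁻¹) * kp v α (h⁻¹ • j) = _
    group
  have h1 := trace_cycles hB (fun j => (c (rp v α j)).n)
    (fun j => by
      show (c (rp v α (t.s⁻¹ • j))).n = (c (rp v α j)).n
      rw [stX_rp ht j]) (fun j a b => (c (rp v α j)).B (DD v α t j) a b) (by
      intro j hj a b ha hb
      have e1 : DD v α t j = 1 := by
        rw [hDt j]
        have e2 : yz B z j = 1 := if_neg hj
        rw [e2, mul_one, inv_mul_cancel]
      simp only [e1]
      exact (c (rp v α j)).one _ _ ha hb)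
  have h2 : ∑ p ∈ PP c, MM c t p p = ∏ b ∈ B, ∑ a ∈ Finset.range (c (rp v α b)).n,
      (c (rp v α b)).B (DD v α t b) a a := by
    unfold PP MM
    exact h1
  rw [h2]
  apply Finset.prod_congr rfl
  intro b hb
  rw [(c (rp v α b)).tr _ (DD_mem hα ht b), hDt b, bp_self hB hb]
  have e2 : yz B z b = z b := if_pos hb
  rw [e2, ← (car_inv (kp_car (v := v) (α := α) b)).2 (z b), inv_inv]

open Classical in
/-- the finite set of the elements of `colStab v j` -/
def HF [Finite G] (v : Finset (Δ → Subgroup G)) (j : Δ) : Finset G :=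
  (Set.toFinite (colStab v j : Set G)).toFinset

omit [Fintype Δ] [DecidableEq Δ] in
theorem mem_HF [Finite G] {j : Δ} {g : G} : g ∈ HF v j ↔ g ∈ colStab v j := by
  unfold HF
  rw [Set.Finite.mem_toFinset]; rfl

omit [Fintype Δ] [DecidableEq Δ] in
theorem card_HF [Finite G] (j : Δ) : (HF v j).card = Nat.card (colStab v j) := by
  unfold HF
  rw [← Set.ncard_eq_toFinset_card]
  exact (Nat.card_coe_set_eq _).symm

theorem wz_image [Finite G] [Fintype G] [Finite K] (hα : IsChars v α)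
    (hh : h ∈ topSt K v α) (hB : IsBase h B) {a0 : Δ → G}
    (ha0 : ∀ j, Car v α (a0 j) (bp hB j) j) (Z W : Finset (Δ → G))
    (hZ : ∀ z, z ∈ Z ↔ ∀ j, z j ∈ colStab v j)
    (hW : ∀ w, w ∈ W ↔ (⟨w, h⟩ : Wreath G Δ K) ∈ stX K v α) [DecidableEq G] :
    Z.image (wz h B a0) = W := by
  obtain ⟨w0, hw0⟩ : ∃ w0 : Δ → G, ∀ j, Car v α (w0 j) (h⁻¹ • j) j := by
    have := mem_topSt.1 hh
    choose w0 hw0 using this
    exact ⟨w0, hw0⟩
  have hcard : W.card = Z.card := by
    apply Finset.card_nbij' (fun w j => w j * (w0 j)⁻¹) (fun z j => z j * w0 j)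
    · intro w hw
      rw [Finset.mem_coe, hZ]
      intro j
      rw [Finset.mem_coe, hW, mem_stX_iff] at hw
      exact (car_self_iff hα).1 (car_mul (car_inv (hw0 j)) (hw j))
    · intro z hz
      rw [Finset.mem_coe, hW, mem_stX_iff]
      intro j
      rw [Finset.mem_coe, hZ] at hz
      exact car_mul (hw0 j) ((car_self_iff hα).2 (hz j))
    · intro w _
      funext j
      show w j * (w0 j)⁻¹ * w0 j = w j
      rw [inv_mul_cancel_right]
    · intro z _
      funext j
      show z j * w0 j * (w0 j)⁻¹ = z j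
      rw [mul_inv_cancel_right]
  apply Finset.eq_of_subset_of_card_le
  · intro w hw
    obtain ⟨z, hz, rfl⟩ := Finset.mem_image.1 hw
    rw [hW]
    exact wz_mem hα hB ha0 ((hZ z).1 hz)
  · rw [Finset.card_image_of_injective _ (wz_inj hB a0), hcard]

theorem wz_surj [Finite G] [Finite K] (hα : IsChars v α)
    (hB : IsBase h B) {a0 : Δ → G}
    (ha0 : ∀ j, Car v α (a0 j) (bp hB j) j) {w : Δ → G}
    (hw : (⟨w, h⟩ : Wreath G Δ K) ∈ stX K v α) :
    ∃ z : Δ → G, (∀ j, z j ∈ colStab v j) ∧ wz h B a0 z = w := by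
  classical
  have hfG : Fintype G := Fintype.ofFinite G
  have hh : h ∈ topSt K v α := ⟨_, hw, rfl⟩
  have h1 := wz_image hα hh hB ha0 (Fintype.piFinset (fun j => HF v j))
    (Finset.univ.filter (fun w => (⟨w, h⟩ : Wreath G Δ K) ∈ stX K v α))
    (fun z => by simp only [Fintype.mem_piFinset, mem_HF])
    (fun w => by simp only [Finset.mem_filter, Finset.mem_univ, true_and])
  have h2 : w ∈ Finset.univ.filter (fun w => (⟨w, h⟩ : Wreath G Δ K) ∈ stX K v α) := by
    rw [Finset.mem_filter]; exact ⟨Finset.mem_univ _, hw⟩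
  rw [← h1] at h2
  obtain ⟨z, hz, rfl⟩ := Finset.mem_image.1 h2
  refine ⟨z, fun j => ?_, rfl⟩
  rw [Fintype.mem_piFinset] at hz
  exact mem_HF.1 (hz j)

omit [Fintype Δ] in
/-- powers of the gauge-fixed element -/
theorem pow_yz (hB : IsBase h B) (z : Δ → G) {b : Δ} (hb : b ∈ B) (m : ℕ)
    (hm : m < Function.minimalPeriod (fun i : Δ => h • i) b) :
    ((⟨yz B z, h⟩ : Wreath G Δ K) ^ (m + 1)).f b = z b ∧
      ((⟨yz B z, h⟩ : Wreath G Δ K) ^ (m + 1)).s = h ^ (m + 1) := by
  induction m with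
  | zero =>
    rw [zero_add, pow_one, pow_one]
    exact ⟨if_pos hb, rfl⟩
  | succ m ih =>
    have ih' := ih (by omega)
    rw [pow_succ, Wreath.mul_f, Wreath.mul_s, ih'.1, ih'.2, pow_succ h (m + 1)]
    refine ⟨?_, rfl⟩
    have h1 : (h ^ (m + 1))⁻¹ • b ∉ B := by
      intro h2
      have h3 : (h ^ (m + 1))⁻¹ • b = b := by
        rw [bp_uniq hB h2 (j := b), bp_self hB hb]
        exact ⟨⟨(h ^ (m + 1))⁻¹, Subgroup.inv_mem _
          (Subgroup.pow_mem _ (Subgroup.mem_zpowers h) _)⟩, rfl⟩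
      have h4 : Function.IsPeriodicPt (fun i : Δ => h • i) (m + 1) b := by
        show (fun i : Δ => h • i)^[m + 1] b = b
        rw [smul_iterate]
        show h ^ (m + 1) • b = b
        rw [inv_smul_eq_iff] at h3
        exact h3.symm
      have h5 := h4.minimalPeriod_le (Nat.succ_pos m)
      omega
    have e : (⟨yz B z, h⟩ : Wreath G Δ K).f ((h ^ (m + 1))⁻¹ • b) = 1 := if_neg h1
    rw [e, mul_one]

theorem XX_value [Finite G] [Finite K] (hα : IsChars v α)
    (c : ∀ j, Coef (colStab v j) (α j)) {t : Wreath G Δ K} (ht : t ∈ stX K v α)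
    (hB : IsBase t.s B) :
    XX c t = ∏ b ∈ B, α b ((t ^ Function.minimalPeriod (fun i : Δ => t.s • i) b).f b) := by
  have hh : t.s ∈ topSt K v α := ⟨_, ht, rfl⟩
  obtain ⟨a0, ha0, -⟩ := exists_a0 hB hh
  obtain ⟨z, hz, hw⟩ := wz_surj hα hB ha0 (w := t.f) ht
  have ht' : t = (⟨wz t.s B a0 z, t.s⟩ : Wreath G Δ K) := Wreath.ext hw.symm rfl
  have h1 : XX c t = ∏ b ∈ B, α b (z b) := by
    conv_lhs => rw [ht']
    exact XX_wz hα c hB ha0 hz
  rw [h1]
  apply Finset.prod_congr rfl
  intro b hb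
  congr 1
  have hper := Function.isPeriodicPt_minimalPeriod (fun i : Δ => t.s • i) b
  have hpos : 0 < Function.minimalPeriod (fun i : Δ => t.s • i) b := by
    apply Function.IsPeriodicPt.minimalPeriod_pos (n := orderOf t.s) (orderOf_pos _)
    show (fun i : Δ => t.s • i)^[orderOf t.s] b = b
    rw [smul_iterate]
    show t.s ^ orderOf t.s • b = b
    rw [pow_orderOf_eq_one, one_smul]
  have hfix : t.s ^ Function.minimalPeriod (fun i : Δ => t.s • i) b • b = b := by
    have : (fun i : Δ => t.s • i)^[Function.minimalPeriod (fun i : Δ => t.s • i) b] b = b := hper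
    rw [smul_iterate] at this
    exact this
  obtain ⟨m, hm⟩ : ∃ m, Function.minimalPeriod (fun i : Δ => t.s • i) b = m + 1 :=
    ⟨Function.minimalPeriod (fun i : Δ => t.s • i) b - 1, by omega⟩
  have h2 := pow_yz (G := G) hB z hb m (by omega)
  rw [hm] at hfix ⊢
  have h3 : t ^ (m + 1) = Wreath.base (az B a0 z) *
      (⟨yz B z, t.s⟩ : Wreath G Δ K) ^ (m + 1) * (Wreath.base (az B a0 z))⁻¹ := by
    conv_lhs => rw [ht', wz_conj]
    rw [conj_pow]
  rw [h3, Wreath.conj_f]
  simp only [Wreath.base_f, Wreath.base_s, inv_one, one_smul, one_mul, mul_one]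
  rw [h2.1, h2.2]
  have e1 : az B a0 z b = 1 := if_pos hb
  have e2 : (t.s ^ (m + 1))⁻¹ • b = b := by
    rw [inv_smul_eq_iff]
    exact hfix.symm
  rw [e2, e1, inv_one, one_mul, mul_one]

theorem XX_form [Finite G] [Finite K] (hα : IsChars v α) (c : ∀ j, Coef (colStab v j) (α j))
    (hh : h ∈ topSt K v α) (hB : IsBase h B) (Φ : Wreath G Δ K → ℂ)
    (hΦ : ∀ x (a : Δ → G), Φ (Wreath.base a * x * (Wreath.base a)⁻¹) = Φ x) :
    ∑ᶠ w : Δ → G, Φ ⟨w, h⟩ * XX c ⟨w, h⟩ =
      (∏ j, if j ∈ B then 1 else (Nat.card (colStab v j) : ℂ)) *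
        ∑ᶠ (y : Δ → G) (_ : ∀ j, j ∉ B → y j = 1), Φ ⟨y, h⟩ * ∏ b ∈ B, α b (y b) := by
  classical
  have hfG : Fintype G := Fintype.ofFinite G
  obtain ⟨a0, ha0, -⟩ := exists_a0 hB hh
  let Z : Finset (Δ → G) := Fintype.piFinset (fun j => HF v j)
  have hZ : ∀ z, z ∈ Z ↔ ∀ j, z j ∈ colStab v j := by
    intro z
    simp only [Z, Fintype.mem_piFinset, mem_HF]
  let W : Finset (Δ → G) := Finset.univ.filter
    (fun w => (⟨w, h⟩ : Wreath G Δ K) ∈ stX K v α)
  have hW : ∀ w, w ∈ W ↔ (⟨w, h⟩ : Wreath G Δ K) ∈ stX K v α := by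
    intro w
    simp only [W, Finset.mem_filter, Finset.mem_univ, true_and]
  have himg : Z.image (wz h B a0) = W := wz_image hα hh hB ha0 Z W hZ hW
  let F : (Δ → G) → ℂ := fun y => Φ ⟨y, h⟩ * ∏ b ∈ B, α b (y b)
  have hL : ∑ᶠ w : Δ → G, Φ ⟨w, h⟩ * XX c ⟨w, h⟩ = ∑ z ∈ Z, F (yz B z) := by
    rw [finsum_eq_sum_of_fintype]
    have h1 : ∑ w : Δ → G, Φ ⟨w, h⟩ * XX c ⟨w, h⟩ = ∑ w ∈ W, Φ ⟨w, h⟩ * XX c ⟨w, h⟩ := by
      symm
      apply Finset.sum_subset (Finset.subset_univ W)
      intro w _ hw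
      rw [XX_not c (fun h' => hw ((hW w).2 h')), mul_zero]
    rw [h1, ← himg, Finset.sum_image (fun x _ y _ hxy => wz_inj hB a0 hxy)]
    apply Finset.sum_congr rfl
    intro z hz
    rw [XX_wz hα c hB ha0 ((hZ z).1 hz), wz_conj, hΦ]
    show _ = Φ ⟨yz B z, h⟩ * ∏ b ∈ B, α b (yz B z b)
    congr 1
    apply Finset.prod_congr rfl
    intro b hb
    have e2 : yz B z b = z b := if_pos hb
    rw [e2]
  let Y : Finset (Δ → G) := Fintype.piFinset (fun j => if j ∈ B then HF v j else {1})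
  have hY : ∀ y, y ∈ Y ↔ (∀ j, j ∉ B → y j = 1) ∧ ∀ j, j ∈ B → y j ∈ colStab v j := by
    intro y
    simp only [Y, Fintype.mem_piFinset]
    constructor
    · intro h1
      refine ⟨fun j hj => ?_, fun j hj => ?_⟩
      · have := h1 j
        rw [if_neg hj, Finset.mem_singleton] at this
        exact this
      · have := h1 j
        rw [if_pos hj, mem_HF] at this
        exact this
    · rintro ⟨h1, h2⟩ j
      split_ifs with hj
      · rw [mem_HF]; exact h2 j hj
      · rw [Finset.mem_singleton]; exact h1 j hj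
  have hR : ∑ᶠ (y : Δ → G) (_ : ∀ j, j ∉ B → y j = 1), Φ ⟨y, h⟩ * ∏ b ∈ B, α b (y b) =
      ∑ y ∈ Y, F y := by
    rw [finsum_eq_sum_of_fintype]
    simp only [finsum_eq_if]
    rw [← Finset.sum_filter]
    symm
    apply Finset.sum_subset
    · intro y hy
      rw [Finset.mem_filter]
      exact ⟨Finset.mem_univ _, ((hY y).1 hy).1⟩
    · intro y hy hy'
      rw [Finset.mem_filter] at hy
      have h2 : ∃ j, j ∈ B ∧ y j ∉ colStab v j := by
        by_contra hcon
        push Not at hcon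
        exact hy' ((hY y).2 ⟨hy.2, hcon⟩)
      obtain ⟨j, hj, hyj⟩ := h2
      show Φ ⟨y, h⟩ * ∏ b ∈ B, α b (y b) = 0
      rw [Finset.prod_eq_zero hj ((hα j).1 _ hyj), mul_zero]
  rw [hL, hR]
  have hmaps : ∀ z ∈ Z, yz B z ∈ Y := by
    intro z hz
    rw [hY]
    refine ⟨fun j hj => if_neg hj, fun j hj => ?_⟩
    have e2 : yz B z j = z j := if_pos hj
    rw [e2]
    exact (hZ z).1 hz j
  rw [← Finset.sum_fiberwise_of_maps_to hmaps, Finset.mul_sum]
  apply Finset.sum_congr rfl
  intro y hy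
  have hfib : Z.filter (fun z => yz B z = y) =
      Fintype.piFinset (fun j => if j ∈ B then {y j} else HF v j) := by
    ext z
    rw [Finset.mem_filter, hZ, Fintype.mem_piFinset]
    constructor
    · rintro ⟨h1, h2⟩ j
      split_ifs with hj
      · rw [Finset.mem_singleton, ← h2]
        exact (if_pos hj).symm
      · rw [mem_HF]; exact h1 j
    · intro h1
      have h3 : ∀ j, j ∈ B → z j = y j := by
        intro j hj
        have := h1 j
        rw [if_pos hj, Finset.mem_singleton] at this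
        exact this
      refine ⟨fun j => ?_, ?_⟩
      · by_cases hj : j ∈ B
        · rw [h3 j hj]
          exact ((hY y).1 hy).2 j hj
        · have := h1 j
          rw [if_neg hj, mem_HF] at this
          exact this
      · funext j
        by_cases hj : j ∈ B
        · rw [← h3 j hj]; exact if_pos hj
        · rw [((hY y).1 hy).1 j hj]; exact if_neg hj
  have hsum : ∑ z ∈ Z.filter (fun z => yz B z = y), F (yz B z) =
      ∑ z ∈ Z.filter (fun z => yz B z = y), F y := by
    apply Finset.sum_congr rfl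
    intro z hz
    rw [(Finset.mem_filter.1 hz).2]
  rw [hsum, Finset.sum_const, nsmul_eq_mul, hfib, Fintype.card_piFinset]
  congr 1
  push_cast
  apply Finset.prod_congr rfl
  intro j _
  split_ifs with hj
  · rw [Finset.card_singleton, Nat.cast_one]
  · rw [card_HF]

end form

end main

theorem ext_ : ExtStmt := by
  intro G Δ K _ _ _ _ _ _ v α hα
  classical
  have c : ∀ j, Coef (colStab v j) (α j) := fun j => (exists_coef _ _ (hα j).2).some
  refine ⟨XX c, XX_mem hα c, XX_base hα c, fun t ht B hB => XX_value hα c ht hB, ?_⟩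
  intro h hh B hB Φ hΦ
  exact XX_form hα c hh hB Φ hΦ

end Pool.Agent.Helper79_WRA.H33
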