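import Pool.Agent.Helper33_WRA.Ext
import Pool.Agent.Helper13_WRA.Form
import Pool.Agent.Helper79_WRA.StmtB

/-!
WRA, module FORMI: integrality of the inner sums for base-invariant functions.
-/

open scoped BigOperators

noncomputable section

namespace Pool.Agent.Helper79_WRA.H33

open Pool.Agent.Helper51_AWC Pool.Agent.Helper79_WRA.H13

theorem isExt_ext {G Δ K : Type} [Group G] [Finite G] [Fintype Δ] [Group K] [Finite K]
    [MulAction K Δ] {v : Finset (Δ → Subgroup G)} {α : Δ → G → ℂ} (hα : IsChars v α) :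
    IsExt K v α (ext K v α) := by
  have h := ext_ G Δ K v α hα
  unfold ext
  rw [dif_pos h]
  exact h.choose_spec

variable {G Δ K : Type} [Group G] [Group K] [MulAction K Δ]

theorem res_class' {h : K} {B : Finset Δ} (hB : IsBase h B) {Φ : Wreath G Δ K → ℂ}
    (hΦ : ∀ x (a : Δ → G), Φ (Wreath.base a * x * (Wreath.base a)⁻¹) = Φ x) {y z : Δ → G}
    (hyz : ∀ i, IsConj (y i) (z i)) :
    Φ ⟨res B y, h⟩ = Φ ⟨res B z, h⟩ := by
  classical
  choose c hc using fun i => isConj_iff.1 (hyz i)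
  choose b hb hu using fun j => hB j
  have hb1 : ∀ j, b (h⁻¹ • j) = b j := by
    intro j
    apply hu
    refine ⟨(hb _).1, ?_⟩
    have h1 := (hb (h⁻¹ • j)).2
    have h2 : h⁻¹ • j ∈ MulAction.orbit (Subgroup.zpowers h) j :=
      ⟨⟨h⁻¹, (Subgroup.zpowers h).inv_mem (Subgroup.mem_zpowers h)⟩, rfl⟩
    rwa [MulAction.orbit_eq_iff.2 h2] at h1
  have hb2 : ∀ i ∈ B, b i = i := fun i hi =>
    (hu i i ⟨hi, MulAction.mem_orbit_self i⟩).symm
  have h1 := hΦ ⟨res B y, h⟩ (fun i => c (b i))
  rw [conj_base] at h1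
  rw [← h1]
  congr 2
  funext i
  unfold res
  by_cases hi : i ∈ B
  · rw [if_pos hi, if_pos hi, hb1, hb2 i hi, hc]
  · rw [if_neg hi, if_neg hi, hb1, mul_one, mul_inv_cancel]

open Classical in
theorem Sh_eq' [Finite G] [Fintype Δ] [Fintype (ConjClasses G)]
    {v : Finset (Δ → Subgroup G)} {α : Δ → G → ℂ} {X : Wreath G Δ K → ℂ} (hα : IsChars v α)
    (hX : IsExt K v α X) {h : K} (hh : h ∈ topSt K v α) {B : Finset Δ} (hB : IsBase h B)
    {Φ : Wreath G Δ K → ℂ}
    (hΦ : ∀ x (a : Δ → G), Φ (Wreath.base a * x * (Wreath.base a)⁻¹) = Φ x) :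
    Sh Φ X h / ∏ j, α j 1 =
      (∏ j, if j ∈ B then (1 : ℂ) else (Nat.card (colStab v j) : ℂ) / α j 1) *
        ∑ C : Δ → ConjClasses G, Φ ⟨res B (fun i => Quotient.out (C i)), h⟩ *
          ∏ i, omB B α i (C i) := by
  have := Fintype.ofFinite G
  have hone : ∀ j, α j 1 ≠ 0 := fun j => IrrS_one_ne (hα j)
  have h1 := hX.form h hh B hB Φ hΦ
  have h2 : (∑ᶠ (y : Δ → G) (_ : ∀ j, j ∉ B → y j = 1), Φ ⟨y, h⟩ * ∏ b ∈ B, α b (y b)) =
      ∑ y : Δ → G, Φ ⟨res B y, h⟩ *
        ∏ i, (if i ∈ B then α i (y i) else if y i = 1 then 1 else 0) := by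
    rw [finsum_eq_sum_of_fintype]
    refine Finset.sum_congr rfl fun y _ => ?_
    rw [finsum_eq_if]
    split_ifs with hy
    · have h3 : res B y = y := by
        funext i
        unfold res
        split_ifs with hi
        · rfl
        · exact (hy i hi).symm
      rw [h3]
      congr 1
      rw [← Finset.prod_subset (Finset.subset_univ B)]
      · exact Finset.prod_congr rfl fun i hi => by rw [if_pos hi]
      · intro i _ hi
        rw [if_neg hi, if_pos (hy i hi)]
    · push Not at hy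
      obtain ⟨j, hj, hj2⟩ := hy
      rw [Finset.prod_eq_zero (Finset.mem_univ j), mul_zero]
      rw [if_neg hj, if_neg hj2]
  have h3 := sum_class_pi (fun y : Δ → G => Φ ⟨res B y, h⟩)
    (fun i x => if i ∈ B then α i x else if x = 1 then 1 else 0)
    (fun y z hyz => res_class' hB hΦ hyz)
  have h4 : ∀ (i : Δ) (C : ConjClasses G),
      ∑ x ∈ Finset.univ.filter (fun x => ConjClasses.mk x = C),
        (if i ∈ B then α i x else if x = 1 then 1 else 0) =
      omB B α i C * (if i ∈ B then α i 1 else 1) := by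
    intro i C
    unfold omB
    by_cases hi : i ∈ B
    · simp only [if_pos hi]
      exact class_omega (α i) (hone i) C
    · simp only [if_neg hi, mul_one]
      rw [Finset.sum_ite_eq']
      simp only [Finset.mem_filter, Finset.mem_univ, true_and]
      by_cases hC : C = ConjClasses.mk 1
      · rw [if_pos hC.symm, if_pos hC]
      · rw [if_neg (fun h => hC h.symm), if_neg hC]
  unfold Sh
  rw [h1, h2, h3]
  simp only [h4, Finset.prod_mul_distrib]
  have h5 : ∏ j, α j 1 = (∏ j, if j ∈ B then α j 1 else 1) *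
      ∏ j, if j ∈ B then 1 else α j 1 := by
    rw [← Finset.prod_mul_distrib]
    refine Finset.prod_congr rfl fun j _ => ?_
    split_ifs <;> simp
  have h6 : (∏ j, if j ∈ B then (1 : ℂ) else (Nat.card (colStab v j) : ℂ) / α j 1) =
      (∏ j, if j ∈ B then (1 : ℂ) else (Nat.card (colStab v j) : ℂ)) /
        ∏ j, if j ∈ B then 1 else α j 1 := by
    rw [← Finset.prod_div_distrib]
    refine Finset.prod_congr rfl fun j _ => ?_
    split_ifs <;> simp
  have h7 : (∏ j, if j ∈ B then α j 1 else 1) ≠ 0 := by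
    refine Finset.prod_ne_zero_iff.2 fun j _ => ?_
    split_ifs
    · exact hone j
    · exact one_ne_zero
  have h8 : (∏ j, if j ∈ B then (1 : ℂ) else α j 1) ≠ 0 := by
    refine Finset.prod_ne_zero_iff.2 fun j _ => ?_
    split_ifs
    · exact one_ne_zero
    · exact hone j
  have h9 : ∑ C : Δ → ConjClasses G, Φ ⟨res B (fun i => Quotient.out (C i)), h⟩ *
      ((∏ i, omB B α i (C i)) * ∏ j, if j ∈ B then α j 1 else 1) =
      (∑ C : Δ → ConjClasses G, Φ ⟨res B (fun i => Quotient.out (C i)), h⟩ *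
        ∏ i, omB B α i (C i)) * ∏ j, if j ∈ B then α j 1 else 1 := by
    rw [Finset.sum_mul]
    exact Finset.sum_congr rfl fun C _ => by ring
  rw [h9, h5, h6]
  field_simp

theorem formi : FormiStmt := by
  classical
  intro G Δ K _ _ _ _ _ _ M v α hα h hh Φ hΦ
  have := Fintype.ofFinite (ConjClasses G)
  obtain ⟨B, hB⟩ := exists_base (Δ := Δ) h
  have h1 := Sh_eq' hα (isExt_ext hα) hh hB hΦ
  unfold Sh at h1
  have hq : ∀ j, IsIntegral ℤ (if j ∈ B then (1 : ℂ) else (Nat.card (colStab v j) : ℂ) / α j 1) := by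
    intro j
    split_ifs
    · exact isIntegral_one
    · exact card_div_integral (hα j)
  have ho : ∀ C : Δ → ConjClasses G, IsIntegral ℤ (∏ i, omB B α i (C i)) := fun C =>
    IsIntegral.prod _ fun i _ => omB_integral hα B i _
  rw [h1]
  constructor
  · intro hI
    exact (IsIntegral.prod _ fun j _ => hq j).mul (IsIntegral.sum _ fun C _ => (hI _).mul (ho C))
  · intro hM
    refine Cong.mul_zero_left ?_ (IsIntegral.prod _ fun j _ => hq j)
    have h0 : (0 : ℂ) = ∑ _C : Δ → ConjClasses G, (0 : ℂ) := by simp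
    rw [h0]
    apply Cong.sum
    intro C _
    exact (hM _).mul_zero_right (ho C)

end Pool.Agent.Helper79_WRA.H33
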