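import Pool.Agent.Helper33_WRA.TesteA
import Pool.Agent.Helper46_WRA.Dzo

/-!
WRA, module TESTE: evaluation of the inner sum.
-/

open scoped BigOperators

noncomputable section

namespace Pool.Agent.Helper79_WRA.H33

open Pool.Agent.Helper51_AWC Pool.Agent.Helper79_WRA.H13

/-- `|G| / χ(1)` is a natural number -/
theorem codeg_nat {G : Type} [Group G] [Finite G] {χ : G → ℂ} (hχ : χ ∈ Irr G) :
    ∃ u : ℕ, (Nat.card G : ℂ) / χ 1 = u := by
  classical
  have := Fintype.ofFinite G
  have := Fintype.ofFinite (ConjClasses G)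
  have h1 : IsIntegral ℤ ((Nat.card G : ℂ) / χ 1) := by
    rw [Nat.card_eq_fintype_card, codeg_eq hχ]
    exact IsIntegral.sum _ fun K _ => (omega_integral _ hχ _).mul (irr_integral hχ _)
  obtain ⟨d, hd, hd'⟩ := irr_one hχ
  have h2 : (Nat.card G : ℂ) / χ 1 = algebraMap ℚ ℂ ((Nat.card G : ℚ) / d) := by
    rw [hd', map_div₀, map_natCast, map_natCast]
  rw [h2] at h1
  have h3 : IsIntegral ℤ ((Nat.card G : ℚ) / d) :=
    (isIntegral_algebraMap_iff (algebraMap ℚ ℂ).injective).1 h1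
  obtain ⟨z, hz⟩ := IsIntegrallyClosed.isIntegral_iff.1 h3
  have h4 : (0 : ℤ) ≤ z := by
    have h5 : (0 : ℚ) ≤ (z : ℚ) := by
      have h6 : (z : ℚ) = (Nat.card G : ℚ) / d := hz
      rw [h6]; positivity
    exact_mod_cast h5
  obtain ⟨u, rfl⟩ := Int.eq_ofNat_of_zero_le h4
  refine ⟨u, ?_⟩
  rw [h2, ← hz]
  simp

theorem natCast_pow_pow {F : Type*} [CommRing F] {ℓ : ℕ} [Fact ℓ.Prime] [CharP F ℓ] (u n : ℕ) :
    ((u : F)) ^ (ℓ ^ n) = u := by
  have h1 : (iterateFrobenius F ℓ n) (u : F) = (u : F) := map_natCast _ u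
  rw [iterateFrobenius_def] at h1
  exact h1

section main

variable {ℓ : ℕ} {G Ω L Δ K : Type} [Group G] [Finite G] [Fintype Ω] [Group L] [Finite L]
  [MulAction L Ω] [Fintype Δ] [Group K] [Finite K] [MulAction K Δ]

omit [Fintype Δ] [Finite K] in
theorem phi_base {q : Ω → Δ} {κ : K →* L} {ι : Wreath G Δ K →* Wreath G Ω L} {P : Subgroup L}
    (hs : Sit ℓ q κ ι P) {β' : Ω → G → ℂ} (hβ' : ∀ i, β' i ∈ Irr G) (x : Wreath G Δ K)
    (a : Δ → G) :
    ex L β' (ι (Wreath.base a * x * (Wreath.base a)⁻¹))⁻¹ = ex L β' (ι x)⁻¹ := by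
  have hι := hs.iota
  have h1 : ι (Wreath.base a) = Wreath.base (fun i => a (q i)) := by
    rw [hι]
    apply Wreath.ext
    · rfl
    · show κ 1 = 1
      exact map_one κ
  have h2 : (ι (Wreath.base a * x * (Wreath.base a)⁻¹))⁻¹ =
      Wreath.base (fun i => a (q i)) * (ι x)⁻¹ * (Wreath.base (fun i => a (q i)))⁻¹ := by
    rw [map_mul, map_mul, map_inv, h1]
    group
  rw [h2]
  have hX := isExt_ext (K := L) (isChars_triv hβ')
  apply IrrS_class hX.mem
  rw [mem_stX_triv hβ']
  intro i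
  rw [Wreath.base_s, inv_one, one_smul]

open Classical in
/-- the model function -/
def Psi (h : K) (B : Finset Δ) (βd : Δ → G → ℂ) (s : Δ → ℕ) (t : Wreath G Δ K) : ℂ :=
  if t.s = h then ∏ b ∈ B, (βd b ((t ^ pr h b).f b)⁻¹) ^ s b else 0

omit [Finite G] [Fintype Δ] [Finite K] in
theorem Psi_base {h : K} {B : Finset Δ} {βd : Δ → G → ℂ} (hβd : ∀ b, βd b ∈ Irr G)
    (s : Δ → ℕ) (x : Wreath G Δ K) (a : Δ → G) :
    Psi h B βd s (Wreath.base a * x * (Wreath.base a)⁻¹) = Psi h B βd s x := by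
  have h1 : (Wreath.base a * x * (Wreath.base a)⁻¹).s = x.s := by
    rw [Wreath.conj_s, Wreath.base_s, one_mul, inv_one, mul_one]
  unfold Psi
  by_cases hx : x.s = h
  · rw [if_pos (h1.trans hx), if_pos hx]
    apply Finset.prod_congr rfl
    intro b _
    congr 1
    rw [conj_pow, Wreath.conj_f]
    simp only [Wreath.base_f, Wreath.base_s, inv_one, one_smul, one_mul, mul_one]
    have h2 : ((x ^ pr h b).s)⁻¹ • b = b := by
      rw [pow_s, hx, inv_smul_eq_iff]
      exact ((pow_smul_iff h b _).2 dvd_rfl).symm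
    rw [h2]
    have h3 : (a b * (x ^ pr h b).f b * (a b)⁻¹)⁻¹ = a b * ((x ^ pr h b).f b)⁻¹ * (a b)⁻¹ := by
      group
    rw [h3, irr_conj (hβd b)]
  · rw [if_neg (fun h' => hx (h1.symm.trans h')), if_neg hx]

omit [Finite G] [Fintype Δ] in
theorem Psi_gauge {h : K} {B : Finset Δ} (hB : IsBase h B) (βd : Δ → G → ℂ) (s : Δ → ℕ)
    {y : Δ → G} (hy : ∀ j, j ∉ B → y j = 1) :
    Psi h B βd s (⟨y, h⟩ : Wreath G Δ K) = ∏ b ∈ B, (βd b (y b)⁻¹) ^ s b := by
  classical
  unfold Psi
  rw [if_pos rfl]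
  have h1 : y = yz B y := by
    funext j
    unfold yz
    split_ifs with hj
    · rfl
    · exact hy j hj
  apply Finset.prod_congr rfl
  intro b hb
  have hpos := pr_pos h b
  obtain ⟨m, hm⟩ : ∃ m, pr h b = m + 1 := ⟨pr h b - 1, by omega⟩
  have h2 := (pow_yz (G := G) hB y hb m (by
    show m < pr h b
    omega)).1
  rw [← h1] at h2
  rw [hm, h2]

theorem Psi_sum {h : K} {B : Finset Δ} (hB : IsBase h B) {α βd : Δ → G → ℂ}
    (hα : ∀ j, α j ∈ Irr G) (hβd : ∀ b, βd b ∈ Irr G) (hh : h ∈ LL K α) (s : Δ → ℕ)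
    [DecidableEq Δ] [DecidableEq G] :
    (∑ᶠ w : Δ → G, Psi h B βd s (⟨w, h⟩ : Wreath G Δ K) * ex K α ⟨w, h⟩) / ∏ j, α j 1 =
      (∏ j, if j ∈ B then 1 else (Nat.card G : ℂ) / α j 1) *
        ∏ b ∈ B, val (fun y => (βd b y⁻¹) ^ s b) (α b) := by
  have := Fintype.ofFinite G
  have hX := isExt_ext (K := K) (isChars_triv hα)
  have hone : ∀ j, α j 1 ≠ 0 := fun j => irr_one_ne (hα j)
  have h1 := hX.form h hh B hB (Psi h B βd s) (fun x a => Psi_base hβd s x a)
  have h2 : ∑ᶠ (y : Δ → G) (_ : ∀ j, j ∉ B → y j = 1),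
      Psi h B βd s (⟨y, h⟩ : Wreath G Δ K) * ∏ b ∈ B, α b (y b) =
      ∑ y : Δ → G, ∏ j, (if j ∈ B then (βd j (y j)⁻¹) ^ s j * α j (y j) else
        if y j = 1 then 1 else 0) := by
    classical
    rw [finsum_eq_sum_of_fintype]
    refine Finset.sum_congr rfl fun y _ => ?_
    rw [finsum_eq_if]
    split_ifs with hy
    · rw [Psi_gauge hB βd s hy, ← Finset.prod_mul_distrib]
      rw [← Finset.prod_subset (Finset.subset_univ B)]
      · exact Finset.prod_congr rfl fun i hi => by rw [if_pos hi]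
      · intro i _ hi
        rw [if_neg hi, if_pos (hy i hi)]
    · push Not at hy
      obtain ⟨j, hj, hj2⟩ := hy
      symm
      apply Finset.prod_eq_zero (Finset.mem_univ j)
      rw [if_neg hj, if_neg hj2]
  have h3 : ∑ y : Δ → G, ∏ j, (if j ∈ B then (βd j (y j)⁻¹) ^ s j * α j (y j) else
        if y j = 1 then 1 else 0) =
      ∏ j, ∑ g : G, (if j ∈ B then (βd j g⁻¹) ^ s j * α j g else if g = 1 then 1 else 0) := by
    rw [Finset.prod_univ_sum, Fintype.piFinset_univ]
  have h4 : ∏ j, ∑ g : G, (if j ∈ B then (βd j g⁻¹) ^ s j * α j g else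
      if g = 1 then 1 else 0) =
      ∏ j, (if j ∈ B then val (fun y => (βd j y⁻¹) ^ s j) (α j) * α j 1 else 1) := by
    apply Finset.prod_congr rfl
    intro j _
    by_cases hj : j ∈ B
    · simp only [if_pos hj]
      rw [val_eq, div_mul_cancel₀ _ (hone j)]
    · simp only [if_neg hj]
      rw [Finset.sum_ite_eq']
      simp
  have h5 : (∏ j, if j ∈ B then (1 : ℂ) else (Nat.card (colStab (triv G Δ) j) : ℂ)) =
      ∏ j, if j ∈ B then (1 : ℂ) else (Nat.card G : ℂ) := by
    apply Finset.prod_congr rfl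
    intro j _
    rw [colStab_triv, Subgroup.card_top]
  have h1' : ∑ᶠ w : Δ → G, Psi h B βd s (⟨w, h⟩ : Wreath G Δ K) * ex K α ⟨w, h⟩ =
      (∏ j, if j ∈ B then (1 : ℂ) else (Nat.card (colStab (triv G Δ) j) : ℂ)) *
        ∑ᶠ (y : Δ → G) (_ : ∀ j, j ∉ B → y j = 1),
          Psi h B βd s (⟨y, h⟩ : Wreath G Δ K) * ∏ b ∈ B, α b (y b) := by
    rw [show (∑ᶠ w : Δ → G, Psi h B βd s (⟨w, h⟩ : Wreath G Δ K) * ex K α ⟨w, h⟩) = _ from h1]
    refine congrArg (fun z => z * _) ?_
    apply Finset.prod_congr rfl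
    intro j _
    split_ifs <;> rfl
  rw [h1', h2, h3, h4, h5]
  have h6 : ∏ b ∈ B, val (fun y => (βd b y⁻¹) ^ s b) (α b) =
      ∏ j, (if j ∈ B then val (fun y => (βd j y⁻¹) ^ s j) (α j) else 1) := by
    rw [← Finset.prod_subset (Finset.subset_univ B)]
    · exact Finset.prod_congr rfl fun i hi => by rw [if_pos hi]
    · intro i _ hi
      rw [if_neg hi]
  rw [h6, ← Finset.prod_mul_distrib, ← Finset.prod_mul_distrib, ← Finset.prod_div_distrib]
  apply Finset.prod_congr rfl
  intro j _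
  split_ifs
  · rw [one_mul, one_mul, mul_div_assoc, div_self (hone j), mul_one]
  · rw [mul_one, mul_one]

end main

/-- TESTE -/
theorem teste (hdzu : DzuStmt) : TesteStmt := by
  classical
  intro ℓ hℓ M hM hℓM G _ _ hcore Ω L Δ K _ _ _ _ _ _ _ _ q κ ι P β α hs ht h hh hcomm β' hdz'
    hfib' hκh
  have hchar : CharP (FF M) ℓ := H15.charP_FF hℓM
  have hfield : IsDomain (FF M) := Ideal.Quotient.isDomain M
  have hβ : ∀ i, β i ∈ Irr G := fun i => (ht.dz i).1
  have hβ' : ∀ i, β' i ∈ Irr G := fun i => (hdz' i).1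
  have hα : ∀ j, α j ∈ Irr G := fun j => (ht.dz' j).1
  -- the functions on `Δ`
  obtain ⟨sec, hsec⟩ := hs.surj.hasRightInverse
  let βd : Δ → G → ℂ := fun j => β' (sec j)
  let βe : Δ → G → ℂ := fun j => β (sec j)
  have hβd : ∀ i, βd (q i) = β' i := fun i => hfib' _ _ (hsec (q i))
  have hβe : ∀ i, βe (q i) = β i := fun i => ht.fib _ _ (hsec (q i))
  have hβdI : ∀ j, βd j ∈ Irr G := fun j => hβ' _
  have hβeI : ∀ j, βe j ∈ Irr G := fun j => hβ _
  have hdeg : ∀ j, α j 1 = βe j 1 := by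
    intro j
    have := ht.deg (sec j)
    rw [hsec j] at this
    exact this
  let s : Δ → ℕ := fun j => Nat.card {i : Ω // q i = j}
  -- the fibres
  have hsn : ∀ j, ∃ n, s j = ℓ ^ n := by
    intro j
    obtain ⟨n, hn⟩ := hs.pgroup.card_orbit (sec j)
    refine ⟨n, ?_⟩
    rw [← hn]
    apply Nat.card_congr
    refine Equiv.subtypeEquivRight ?_
    intro i
    rw [MulAction.mem_orbit_iff]
    constructor
    · intro hi
      obtain ⟨p, hp, hpi⟩ := (hs.fib (sec j) i).1 (by rw [hsec j, hi])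
      exact ⟨⟨p, hp⟩, hpi⟩
    · rintro ⟨p, hpi⟩
      have := (hs.fib (sec j) i).2 ⟨p, p.2, hpi⟩
      rw [← this, hsec j]
  choose nn hnn using hsn
  -- the base points
  obtain ⟨B, hB⟩ := exists_base (Δ := Δ) h
  -- the comparison function
  let D : Wreath G Δ K → ℂ := fun t =>
    if t.s = h then ex L β' (ι t)⁻¹ - Psi h B βd s t else 0
  have hDb : ∀ x (a : Δ → G), D (Wreath.base a * x * (Wreath.base a)⁻¹) = D x := by
    intro x a
    have h1 : (Wreath.base a * x * (Wreath.base a)⁻¹).s = x.s := by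
      rw [Wreath.conj_s, Wreath.base_s, one_mul, inv_one, mul_one]
    simp only [D]
    rw [h1, phi_base hs hβ', Psi_base hβdI]
  have hDM : ∀ t, Cong M (D t) 0 := by
    intro t
    simp only [D]
    split_ifs with ht'
    · rw [← cong_iff_sub]
      obtain ⟨hi, hr⟩ := ex_red hℓM hs hcomm hβ' hκh βd hβd hB t ht'
      have hψ : Psi h B βd s t = ∏ b ∈ B, (βd b ((t ^ pr h b).f b)⁻¹) ^ s b := if_pos ht'
      have hi2 : ∀ b ∈ B, IsIntegral ℤ ((βd b ((t ^ pr h b).f b)⁻¹) ^ s b) := fun b _ =>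
        (irr_integral (hβdI b) _).pow _
      have hi3 : IsIntegral ℤ (Psi h B βd s t) := by
        rw [hψ]; exact IsIntegral.prod _ hi2
      rw [← red_eq_iff hi hi3, hr, hψ, red_prod _ _ hi2]
      apply Finset.prod_congr rfl
      intro b _
      rw [red_pow (irr_integral (hβdI b) _)]
    · exact Cong.refl _
  have hEE : Cong M (EE ι β' α h)
      ((∑ᶠ w : Δ → G, Psi h B βd s (⟨w, h⟩ : Wreath G Δ K) * ex K α ⟨w, h⟩) /
        ∏ j, α j 1) := by
    have h1 := (formi G Δ K M (triv G Δ) α (isChars_triv hα) h hh D hDb).2 hDM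
    have := Fintype.ofFinite G
    rw [cong_iff_sub]
    have h2 : EE ι β' α h - (∑ᶠ w : Δ → G, Psi h B βd s (⟨w, h⟩ : Wreath G Δ K) *
        ex K α ⟨w, h⟩) / ∏ j, α j 1 =
        (∑ᶠ w : Δ → G, D ⟨w, h⟩ * ext K (triv G Δ) α ⟨w, h⟩) / ∏ j, α j 1 := by
      unfold EE
      rw [← sub_div, finsum_eq_sum_of_fintype, finsum_eq_sum_of_fintype,
        finsum_eq_sum_of_fintype, ← Finset.sum_sub_distrib]
      congr 1
      apply Finset.sum_congr rfl
      intro w _
      have h3 : D ⟨w, h⟩ = ex L β' (ι ⟨w, h⟩)⁻¹ - Psi h B βd s ⟨w, h⟩ := if_pos rfl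
      rw [h3]
      ring
    rw [h2]
    exact h1
  rw [Psi_sum hB hα hβdI hh s] at hEE
  -- the local factors
  have hV : ∀ b, IsIntegral ℤ (val (fun y => (βd b y⁻¹) ^ s b) (α b)) ∧
      (βd b = βe b → Cong M (val (fun y => (βd b y⁻¹) ^ s b) (α b))
        (((Nat.card G : ℂ) / α b 1) ^ s b)) ∧
      (βd b ≠ βe b → Cong M (val (fun y => (βd b y⁻¹) ^ s b) (α b)) 0) := by
    intro b
    have htw := ht.tw (sec b) (nn b) (by
      rw [hsec b]
      exact hnn b)
    rw [hsec b] at htw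
    obtain ⟨h1, h2, h3⟩ := H46.dzo ℓ M hℓM G hcore (nn b) (βe b) (ht.dz _) (α b) (ht.dz' b)
      (βd b) (hdz' _) htw
    rw [← hnn b] at h1 h2 h3
    refine ⟨h1, fun hb => ?_, fun hb => ?_⟩
    · have h4 : IsIntegral ℤ ((Nat.card G : ℂ) / α b 1) := by
        obtain ⟨u, hu⟩ := codeg_nat (hα b)
        rw [hu]; exact AI.natCast u
      rw [← red_eq_iff h1 (h4.pow _), h2 hb, red_pow h4, hdeg b]
    · rw [← red_eq_iff h1 isIntegral_zero, h3 hb, red_zero]
  have hU : ∀ j, ∃ u : ℕ, (Nat.card G : ℂ) / α j 1 = u := fun j => codeg_nat (hα j)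
  choose u hu using hU
  have huI : ∀ j, IsIntegral ℤ ((Nat.card G : ℂ) / α j 1) := by
    intro j
    rw [hu j]; exact AI.natCast _
  have hA : IsIntegral ℤ (∏ j, if j ∈ B then (1 : ℂ) else (Nat.card G : ℂ) / α j 1) := by
    apply IsIntegral.prod
    intro j _
    split_ifs
    · exact isIntegral_one
    · exact huI j
  constructor
  · -- equal families
    intro heq
    have hde : ∀ b, βd b = βe b := fun b => by
      show β' (sec b) = β (sec b)
      rw [heq]
    refine hEE.trans ?_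
    have h1 : uu β = ∏ j, ((Nat.card G : ℂ) / α j 1) ^ s j := by
      unfold uu
      rw [← Finset.prod_fiberwise Finset.univ q]
      apply Finset.prod_congr rfl
      intro j _
      have h2 : ∀ i ∈ Finset.univ.filter (fun i => q i = j),
          (Nat.card G : ℂ) / β i 1 = (Nat.card G : ℂ) / α j 1 := by
        intro i hi
        rw [hdeg j, ← (Finset.mem_filter.1 hi).2, hβe i]
      rw [Finset.prod_congr rfl h2, Finset.prod_const]
      congr 1
      show _ = Nat.card {i : Ω // q i = j}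
      rw [Nat.card_eq_fintype_card, Fintype.card_subtype]
    have h2 : ∏ j, ((Nat.card G : ℂ) / α j 1) ^ s j =
        (∏ j, if j ∈ B then (1 : ℂ) else ((Nat.card G : ℂ) / α j 1) ^ s j) *
          ∏ b ∈ B, ((Nat.card G : ℂ) / α b 1) ^ s b := by
      have h3 : ∏ b ∈ B, ((Nat.card G : ℂ) / α b 1) ^ s b =
          ∏ j, (if j ∈ B then ((Nat.card G : ℂ) / α j 1) ^ s j else 1) := by
        rw [← Finset.prod_subset (Finset.subset_univ B)]
        · exact Finset.prod_congr rfl fun i hi => by rw [if_pos hi]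
        · intro i _ hi
          rw [if_neg hi]
      rw [h3, ← Finset.prod_mul_distrib]
      apply Finset.prod_congr rfl
      intro j _
      split_ifs
      · rw [one_mul]
      · rw [mul_one]
    rw [h1, h2]
    have hVI : IsIntegral ℤ (∏ b ∈ B, val (fun y => (βd b y⁻¹) ^ s b) (α b)) :=
      IsIntegral.prod _ fun b _ => (hV b).1
    refine Cong.mul ?_ ?_ ?_ hVI
    · refine Cong.prod' _ _ _ (fun j _ => ?_) (fun j _ => ?_) (fun j _ => ?_)
      · split_ifs
        · exact Cong.refl _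
        · rw [← red_eq_iff (huI j) ((huI j).pow _), red_pow (huI j), hu j, H15.red_natCast,
            hnn j]
          have hF : ((u j : FF M)) ^ (ℓ ^ nn j) = u j := by
            exact natCast_pow_pow (F := FF M) (u j) (nn j)
          exact hF.symm
      · split_ifs
        · exact isIntegral_one
        · exact huI j
      · split_ifs
        · exact isIntegral_one
        · exact (huI j).pow _
    · exact Cong.prod' _ _ _ (fun b _ => (hV b).2.1 (hde b)) (fun b _ => (hV b).1)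
        (fun b _ => (huI b).pow _)
    · apply IsIntegral.prod
      intro j _
      split_ifs
      · exact isIntegral_one
      · exact (huI j).pow _
  · -- different families
    intro hne
    refine hEE.trans ?_
    -- invariance of `β` under `κ h`
    have hβinv : ∀ i, β (κ h • i) = β i := by
      intro i
      apply hdzu ℓ M hℓM G hcore _ (ht.dz _) _ (hβ i)
      funext g
      have e1 : q (κ h • i) = h • q i := hs.compat h i
      have e2 : α (q (κ h • i)) = α (q i) := by rw [e1, LL_smul hα hh]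
      have hcard : Nat.card {i' : Ω // q i' = q (κ h • i)} = Nat.card {i' : Ω // q i' = q i} := by
        apply Nat.card_congr
        refine (Equiv.subtypeEquiv (MulAction.toPerm (κ h) : Equiv.Perm Ω) ?_).symm
        intro i'
        show q i' = q i ↔ q (κ h • i') = q (κ h • i)
        rw [hs.compat, hs.compat]
        exact ⟨fun h' => by rw [h'], fun h' => MulAction.injective h h'⟩
      have t1 := ht.tw i (nn (q i)) (hnn (q i)) g
      have t2 := ht.tw (κ h • i) (nn (q i)) (hcard.trans (hnn (q i))) g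
      rw [e2, t1] at t2
      exact (iterateFrobenius_inj (FF M) ℓ (nn (q i)) (by
        rw [iterateFrobenius_def, iterateFrobenius_def]
        exact t2)).symm
    have hex : ∃ b ∈ B, βd b ≠ βe b := by
      by_contra hcon
      push Not at hcon
      apply hne
      have h1 : ∀ j, ∀ i, q i = j → β' i = β i := by
        apply cyc_ind hB
        · intro b hb i hi
          rw [← hβd i, ← hβe i, hi, hcon b hb]
        · intro j _ ih i hi
          have h2 := ih ((κ h)⁻¹ • i) (by
            rw [← map_inv, hs.compat, hi])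
          have h3 := hβinv ((κ h)⁻¹ • i)
          rw [smul_inv_smul] at h3
          have h4 := LL_smul hβ' hκh ((κ h)⁻¹ • i)
          rw [smul_inv_smul] at h4
          rw [h4, h2, ← h3]
      funext i
      exact h1 (q i) i rfl
    obtain ⟨b, hb, hbne⟩ := hex
    refine Cong.mul_zero_left ?_ hA
    rw [← Finset.mul_prod_erase B _ hb]
    exact ((hV b).2.2 hbne).mul_zero_right (IsIntegral.prod _ fun b _ => (hV b).1)

end Pool.Agent.Helper79_WRA.H33
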