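import Pool.Agent.Helper51_AWC.PiChar

/-!
WRA, module EXT, part A: a representation with irreducible restriction is irreducible.
-/

open scoped BigOperators
open Module

noncomputable section

namespace Pool.Agent.Helper79_WRA.H33

open Pool.Agent.Helper51_AWC

theorem mem_Irr_of_restrict {T Y : Type} [Group T] [Fintype T] [Group Y] [Fintype Y] (ι : Y →* T)
    {V : Type} [AddCommGroup V] [Module ℂ V] [FiniteDimensional ℂ V] (ρ : Representation ℂ T V)
    (h : (fun y => ρ.character (ι y)) ∈ Irr Y) : ρ.character ∈ Irr T := by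
  have hcT : (Nat.card T : ℂ) ≠ 0 := by exact_mod_cast Nat.card_pos.ne'
  have hcY : (Nat.card Y : ℂ) ≠ 0 := by exact_mod_cast Nat.card_pos.ne'
  have hiT := invertibleOfNonzero hcT
  have hiY := invertibleOfNonzero hcY
  let σ : Representation ℂ Y V := ρ.comp ι
  have h1 : finrank ℂ (Representation.IntertwiningMap σ σ) = 1 := by
    have h2 := Representation.card_inv_mul_sum_char_mul_char_eq_finrank σ σ
    have h3 : ∑ g, σ.character g * σ.character g⁻¹ = Fintype.card Y := irr_orth_self h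
    rw [h3, ← Nat.card_eq_fintype_card, inv_mul_cancel₀ hcY] at h2
    exact_mod_cast h2.symm
  have hfin : FiniteDimensional ℂ (Representation.IntertwiningMap σ σ) :=
    FiniteDimensional.of_finrank_pos (by rw [h1]; exact one_pos)
  let F : Representation.IntertwiningMap ρ ρ →ₗ[ℂ] Representation.IntertwiningMap σ σ :=
    { toFun := fun f => ⟨f.toLinearMap, fun y => f.isIntertwining' (ι y)⟩
      map_add' := fun _ _ => rfl
      map_smul' := fun _ _ => rfl }
  have hF : Function.Injective F := by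
    intro f g hfg
    apply Representation.IntertwiningMap.ext
    have h8 := congrArg (fun f : Representation.IntertwiningMap σ σ => f.toLinearMap) hfg
    exact h8
  have h4 : finrank ℂ (Representation.IntertwiningMap ρ ρ) ≤ 1 := by
    rw [← h1]
    exact LinearMap.finrank_le_finrank_of_injective hF
  have hfin' : FiniteDimensional ℂ (Representation.IntertwiningMap ρ ρ) :=
    FiniteDimensional.of_injective F hF
  have hV : Nontrivial V := by
    by_contra hcon
    rw [not_nontrivial_iff_subsingleton] at hcon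
    have h5 := irr_one_ne h
    apply h5
    simp only [map_one, Representation.char_one]
    rw [finrank_zero_of_subsingleton]; simp
  have h5 : 0 < finrank ℂ (Representation.IntertwiningMap ρ ρ) := by
    rw [finrank_pos_iff]
    refine ⟨⟨0, Representation.IntertwiningMap.id ρ, fun h => ?_⟩⟩
    obtain ⟨v, hv⟩ := exists_ne (0 : V)
    apply hv
    have := congrArg (fun f => Representation.IntertwiningMap.toLinearMap f v) h
    exact this.symm
  have h6 : finrank ℂ (Representation.IntertwiningMap ρ ρ) = 1 := by omega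
  apply mem_Irr_of_norm
  have h7 := Representation.card_inv_mul_sum_char_mul_char_eq_finrank ρ ρ
  rw [h6, Nat.cast_one, inv_mul_eq_one₀ hcT] at h7
  rw [← h7, Nat.card_eq_fintype_card]

/-- a system of matrix coefficients with irreducible restriction -/
theorem mem_Irr_of_coeff_restrict {T Y : Type} [Group T] [Fintype T] [Group Y] [Fintype Y]
    (ι : Y →* T) {X : Type} [Fintype X] [DecidableEq X]
    (r : T → X → X → ℂ) (h1 : ∀ a b, r 1 a b = if a = b then 1 else 0)
    (h2 : ∀ g h a b, r (g * h) a b = ∑ c, r g a c * r h c b) (χ : T → ℂ)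
    (h3 : ∀ g, ∑ a, r g a a = χ g) (h4 : (fun y => χ (ι y)) ∈ Irr Y) : χ ∈ Irr T := by
  let R : T →* Matrix X X ℂ :=
    { toFun := fun g => Matrix.of (r g)
      map_one' := by
        ext a b
        rw [Matrix.one_apply]
        exact h1 a b
      map_mul' := by
        intro g h
        ext a b
        rw [Matrix.mul_apply]
        exact h2 g h a b }
  let ρ : Representation ℂ T (X → ℂ) :=
    (Matrix.toLinAlgEquiv' : Matrix X X ℂ ≃ₐ[ℂ] _).toRingEquiv.toMulEquiv.toMonoidHom.comp R
  have hc : ρ.character = χ := by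
    funext g
    rw [← h3 g]
    simp only [Representation.character]
    rw [LinearMap.trace_eq_matrix_trace ℂ (Pi.basisFun ℂ X)]
    have : LinearMap.toMatrix (Pi.basisFun ℂ X) (Pi.basisFun ℂ X) (ρ g) = R g := by
      show LinearMap.toMatrix (Pi.basisFun ℂ X) (Pi.basisFun ℂ X) (Matrix.toLin' (R g)) = R g
      rw [LinearMap.toMatrix_eq_toMatrix', LinearMap.toMatrix'_toLin']
    rw [this]
    rfl
  have h5 := mem_Irr_of_restrict ι ρ (by rw [hc]; exact h4)
  rw [hc] at h5
  exact h5

/-- padded matrix coefficients of an irreducible character of a subgroup -/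
structure Coef {G : Type} [Group G] (H : Subgroup G) (α : G → ℂ) where
  /-- the degree -/
  n : ℕ
  /-- the coefficients -/
  B : G → ℕ → ℕ → ℂ
  one : ∀ a b, a < n → b < n → B 1 a b = if a = b then 1 else 0
  mul : ∀ g ∈ H, ∀ h ∈ H, ∀ a b, B (g * h) a b = ∑ c ∈ Finset.range n, B g a c * B h c b
  tr : ∀ g ∈ H, ∑ a ∈ Finset.range n, B g a a = α g

open Classical in
theorem exists_coef {G : Type} [Group G] (H : Subgroup G) (α : G → ℂ)
    (hα : (fun h : H => α h) ∈ Irr H) : Nonempty (Coef H α) := by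
  obtain ⟨n, r, h1, h2, h3⟩ := irr_coeff hα
  refine ⟨⟨n, fun g a b => if h : g ∈ H ∧ a < n ∧ b < n then r ⟨g, h.1⟩ ⟨a, h.2.1⟩ ⟨b, h.2.2⟩
    else 0, ?_, ?_, ?_⟩⟩
  · intro a b ha hb
    rw [dif_pos ⟨H.one_mem, ha, hb⟩]
    have := h1 ⟨a, ha⟩ ⟨b, hb⟩
    simp only [Fin.mk.injEq] at this
    exact this
  · intro g hg h hh a b
    by_cases hab : a < n ∧ b < n
    · rw [dif_pos ⟨H.mul_mem hg hh, hab⟩]
      have := h2 ⟨g, hg⟩ ⟨h, hh⟩ ⟨a, hab.1⟩ ⟨b, hab.2⟩
      rw [← Fin.sum_univ_eq_sum_range (fun c => (if h : g ∈ H ∧ a < n ∧ c < n then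
        r ⟨g, h.1⟩ ⟨a, h.2.1⟩ ⟨c, h.2.2⟩ else 0) * (if h' : h ∈ H ∧ c < n ∧ b < n then
        r ⟨h, h'.1⟩ ⟨c, h'.2.1⟩ ⟨b, h'.2.2⟩ else 0))]
      have e : (⟨g * h, H.mul_mem hg hh⟩ : H) = ⟨g, hg⟩ * ⟨h, hh⟩ := rfl
      rw [e, this]
      apply Finset.sum_congr rfl
      intro c _
      rw [dif_pos ⟨hg, hab.1, c.2⟩, dif_pos ⟨hh, c.2, hab.2⟩]
    · rw [dif_neg (fun h => hab h.2)]
      symm
      apply Finset.sum_eq_zero
      intro c _
      by_cases ha : a < n
      · rw [mul_comm, dif_neg (fun h => hab ⟨ha, h.2.2⟩), zero_mul]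
      · rw [dif_neg (fun h => ha h.2.1), zero_mul]
  · intro g hg
    rw [← Fin.sum_univ_eq_sum_range (fun a => (if h : g ∈ H ∧ a < n ∧ a < n then
        r ⟨g, h.1⟩ ⟨a, h.2.1⟩ ⟨a, h.2.2⟩ else 0))]
    rw [← h3 ⟨g, hg⟩]
    apply Finset.sum_congr rfl
    intro a _
    rw [dif_pos ⟨hg, a.2, a.2⟩]

end Pool.Agent.Helper79_WRA.H33
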