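import Pool.Agent.Helper33_WRA.Formi
import Pool.Agent.Helper15_WRA.Vpow

/-!
WRA, module TESTE, part A: cycles over fibres and the value of the extension.
-/

open scoped BigOperators

noncomputable section

namespace Pool.Agent.Helper79_WRA.H33

open Pool.Agent.Helper51_AWC Pool.Agent.Helper79_WRA.H13

/-! ### the trivial chain of boxes -/

section triv

variable {G Ω L : Type} [Group G] [Group L] [MulAction L Ω]

theorem conjS_bot' (g : G) : conjS g (⊥ : Subgroup G) = ⊥ := Subgroup.map_bot _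

omit [Group L] [MulAction L Ω] in
theorem mem_triv {R : Ω → Subgroup G} : R ∈ triv G Ω ↔ R = fun _ => ⊥ := by
  unfold triv
  exact Finset.mem_singleton

omit [Group L] [MulAction L Ω] in
theorem colStab_triv (j : Ω) : colStab (triv G Ω) j = ⊤ := by
  rw [eq_top_iff]
  intro g _
  rw [mem_colStab]
  intro R hR
  rw [mem_triv.1 hR]
  exact conjS_bot' g

omit [Group L] [MulAction L Ω] in
theorem isChars_triv {β : Ω → G → ℂ} (hβ : ∀ i, β i ∈ Irr G) : IsChars (triv G Ω) β := by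
  intro j
  rw [colStab_triv]
  exact mem_IrrS_top.2 (hβ j)

theorem mem_stX_triv {β : Ω → G → ℂ} (hβ : ∀ i, β i ∈ Irr G) {t : Wreath G Ω L} :
    t ∈ stX L (triv G Ω) β ↔ ∀ i, β (t.s⁻¹ • i) = β i := by
  rw [mem_stX]
  constructor
  · rintro ⟨_, h⟩ i
    funext y
    rw [← h i y, irr_conj (hβ i)]
  · intro h
    refine ⟨fun R hR j => ?_, fun j y => ?_⟩
    · rw [mem_triv.1 hR]
      exact conjS_bot' _
    · rw [irr_conj (hβ j), h]

theorem mem_LL {β : Ω → G → ℂ} (hβ : ∀ i, β i ∈ Irr G) {h : L} :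
    h ∈ LL L β ↔ ∀ i, β (h⁻¹ • i) = β i := by
  constructor
  · rintro ⟨t, ht, rfl⟩
    exact (mem_stX_triv hβ).1 ht
  · intro H
    exact ⟨⟨fun _ => 1, h⟩, (mem_stX_triv hβ).2 H, rfl⟩

theorem LL_smul {β : Ω → G → ℂ} (hβ : ∀ i, β i ∈ Irr G) {h : L} (hh : h ∈ LL L β) (i : Ω) :
    β (h • i) = β i := by
  have := (mem_LL hβ).1 hh (h • i)
  rw [inv_smul_smul] at this
  exact this.symm

end triv

/-! ### periods -/

section per

variable {L Ω : Type} [Group L] [MulAction L Ω]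

/-- the period -/
abbrev pr (h : L) (i : Ω) : ℕ := Function.minimalPeriod (fun j : Ω => h • j) i

theorem pow_smul_iff (h : L) (i : Ω) (n : ℕ) : h ^ n • i = i ↔ pr h i ∣ n := by
  rw [← Function.isPeriodicPt_iff_minimalPeriod_dvd]
  show _ ↔ (fun j : Ω => h • j)^[n] i = i
  rw [smul_iterate]

theorem pr_pos [Finite L] (h : L) (i : Ω) : 0 < pr h i := by
  have h1 : pr h i ∣ orderOf h := by
    rw [← pow_smul_iff, pow_orderOf_eq_one, one_smul]
  exact Nat.pos_of_dvd_of_pos h1 (orderOf_pos h)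

theorem pr_inv (h : L) (i : Ω) : pr h⁻¹ i = pr h i := by
  have key : ∀ n, pr h⁻¹ i ∣ n ↔ pr h i ∣ n := by
    intro n
    rw [← pow_smul_iff, ← pow_smul_iff, inv_pow, inv_smul_eq_iff]
    exact eq_comm
  exact Nat.dvd_antisymm ((key _).2 dvd_rfl) ((key _).1 dvd_rfl)

theorem isBase_inv {h : L} {B : Finset Ω} (hB : IsBase h B) : IsBase h⁻¹ B := by
  intro j
  have := hB j
  have e : Subgroup.zpowers h⁻¹ = Subgroup.zpowers h := Subgroup.zpowers_inv
  rw [e]
  exact this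

theorem mem_orbit_pow [Finite L] {h : L} {i i' : Ω}
    (hi : i' ∈ MulAction.orbit (Subgroup.zpowers h) i) : ∃ k : ℕ, i' = h ^ k • i := by
  obtain ⟨⟨z, hz⟩, rfl⟩ := hi
  obtain ⟨k, rfl⟩ : ∃ k : ℕ, h ^ k = z := by
    have := mem_powers_iff_mem_zpowers.2 hz
    exact this
  exact ⟨k, rfl⟩

theorem orbit_symm' {h : L} {i i' : Ω} (hi : i' ∈ MulAction.orbit (Subgroup.zpowers h) i) :
    i ∈ MulAction.orbit (Subgroup.zpowers h) i' := by
  rw [← MulAction.orbit_eq_iff] at hi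
  rw [hi]
  exact MulAction.mem_orbit_self i

theorem pow_mem_orbit (h : L) (i : Ω) (k : ℕ) :
    h ^ k • i ∈ MulAction.orbit (Subgroup.zpowers h) i :=
  ⟨⟨h ^ k, Subgroup.pow_mem _ (Subgroup.mem_zpowers h) _⟩, rfl⟩

end per

/-! ### powers in the wreath product -/

section pow

variable {G Δ K : Type} [Group G] [Group K] [MulAction K Δ]

theorem pow_s (u : Wreath G Δ K) (n : ℕ) : (u ^ n).s = u.s ^ n :=
  map_pow (Wreath.proj : Wreath G Δ K →* K) u n

theorem pow_f_mul (u : Wreath G Δ K) (b : Δ) (n m : ℕ) (hfix : u.s ^ n • b = b) :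
    (u ^ (n * m)).f b = ((u ^ n).f b) ^ m := by
  induction m with
  | zero => rw [mul_zero, pow_zero, pow_zero, Wreath.one_f]
  | succ m ih =>
    have h1 : u.s ^ (n * m) • b = b := by
      rw [pow_smul_iff] at hfix ⊢
      exact dvd_mul_of_dvd_left hfix m
    rw [mul_add, mul_one, pow_add, Wreath.mul_f, ih, pow_s, pow_succ]
    congr 2
    rw [inv_smul_eq_iff]
    exact h1.symm

end pow

/-! ### cycles over fibres -/

section overs

variable {Ω Δ L K : Type} [Group L] [MulAction L Ω] [Group K] [MulAction K Δ]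
  {q : Ω → Δ} {κ : K →* L}

theorem pow_compat (hc : ∀ k i, q (κ k • i) = k • q i) (h : K) (n : ℕ) (i : Ω) :
    q (κ h ^ n • i) = h ^ n • q i := by
  rw [← map_pow, hc]

theorem pr_dvd (hc : ∀ k i, q (κ k • i) = k • q i) (h : K) (i : Ω) :
    pr h (q i) ∣ pr (κ h) i := by
  rw [← pow_smul_iff, ← pow_compat hc, (pow_smul_iff (κ h) i _).2 dvd_rfl]

theorem per_over [Finite K] {ℓ : ℕ} (hℓ : ℓ.Prime) (hc : ∀ k i, q (κ k • i) = k • q i)
    {P : Subgroup L} (hP : IsPGroup ℓ P) (hfib : ∀ i i', q i = q i' ↔ ∃ p ∈ P, p • i = i')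
    {h : K} (hcomm : ∀ p ∈ P, p * κ h = κ h * p) (i : Ω) :
    ∃ a, pr (κ h) i = pr h (q i) * ℓ ^ a := by
  obtain ⟨m, hm⟩ := pr_dvd hc h i
  have hfix : h ^ pr h (q i) • q i = q i := (pow_smul_iff h (q i) _).2 dvd_rfl
  have hg : q (κ h ^ pr h (q i) • i) = q i := by
    rw [pow_compat hc, hfix]
  obtain ⟨p, hp, hpi⟩ := (hfib i _).1 hg.symm
  have hcm : ∀ k, p * (κ h ^ pr h (q i)) ^ k = (κ h ^ pr h (q i)) ^ k * p := by
    intro k
    have h1 : Commute p (κ h) := hcomm p hp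
    exact ((h1.pow_right _).pow_right k)
  have hpg : ∀ k : ℕ, (κ h ^ pr h (q i)) ^ k • i = p ^ k • i := by
    intro k
    induction k with
    | zero => rw [pow_zero, pow_zero]
    | succ k ih =>
      rw [pow_succ, mul_smul, ← hpi, ← mul_smul, ← hcm, mul_smul, ih, ← mul_smul, ← pow_succ']
  obtain ⟨a, ha⟩ := hP ⟨p, hp⟩
  have ha' : p ^ (ℓ ^ a) = 1 := congrArg Subtype.val ha
  have h2 : pr (κ h) i ∣ pr h (q i) * ℓ ^ a := by
    rw [← pow_smul_iff, pow_mul, hpg, ha', one_smul]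
  rw [hm] at h2
  have h3 := Nat.dvd_of_mul_dvd_mul_left (pr_pos h (q i)) h2
  obtain ⟨a', _, rfl⟩ := (Nat.dvd_prime_pow hℓ).1 h3
  exact ⟨a', hm⟩

theorem exists_base_over [Fintype Ω] (hc : ∀ k i, q (κ k • i) = k • q i) {h : K} {B : Finset Δ}
    (hB : IsBase h B) : ∃ BΩ : Finset Ω, IsBase (κ h) BΩ ∧ ∀ i ∈ BΩ, q i ∈ B := by
  classical
  have h1 : ∀ i : Ω, ∃ i' ∈ MulAction.orbit (Subgroup.zpowers (κ h)) i, q i' ∈ B := by
    intro i
    obtain ⟨⟨z, hz⟩, hz'⟩ := bp_orb hB (q i)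
    have hz2 : z • q i = bp hB (q i) := hz'
    refine ⟨κ z • i, ⟨⟨κ z, ?_⟩, rfl⟩, ?_⟩
    · obtain ⟨n, rfl⟩ := hz
      exact ⟨n, by simp⟩
    · rw [hc, hz2]
      exact bp_mem hB _
  choose f hf1 hf2 using h1
  let s := MulAction.orbitRel (Subgroup.zpowers (κ h)) Ω
  let r : Ω → Ω := fun j => f (Quotient.mk s j).out
  have hr : ∀ j, r j ∈ MulAction.orbit (Subgroup.zpowers (κ h)) j := by
    intro j
    have h2 : (Quotient.mk s j).out ∈ MulAction.orbit (Subgroup.zpowers (κ h)) j :=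
      Quotient.exact (s := s) (Quotient.out_eq (Quotient.mk s j))
    have h3 := hf1 (Quotient.mk s j).out
    rwa [MulAction.orbit_eq_iff.2 h2] at h3
  refine ⟨Finset.univ.image r, fun j => ⟨r j, ⟨Finset.mem_image_of_mem _ (Finset.mem_univ _),
    hr j⟩, ?_⟩, ?_⟩
  · rintro b ⟨hb, hbj⟩
    obtain ⟨j', -, rfl⟩ := Finset.mem_image.1 hb
    have h1 : Quotient.mk s (r j') = Quotient.mk s j := Quotient.sound (s := s) hbj
    have h2 : Quotient.mk s (r j') = Quotient.mk s j' := Quotient.sound (s := s) (hr j')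
    show f (Quotient.mk s j').out = f (Quotient.mk s j).out
    rw [← h2, h1]
  · intro i hi
    obtain ⟨j', -, rfl⟩ := Finset.mem_image.1 hi
    exact hf2 _

theorem q_bp [Finite L] (hc : ∀ k i, q (κ k • i) = k • q i) {h : K} {B : Finset Δ}
    (hB : IsBase h B) {BΩ : Finset Ω} (hBΩ : IsBase (κ h) BΩ) (hover : ∀ i ∈ BΩ, q i ∈ B) (i : Ω) :
    q (bp hBΩ i) = bp hB (q i) := by
  apply bp_uniq hB (hover _ (bp_mem hBΩ i))
  obtain ⟨k, hk⟩ := mem_orbit_pow (bp_orb hBΩ i)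
  rw [hk, pow_compat hc]
  exact pow_mem_orbit h (q i) k

theorem card_fib [Fintype Ω] [DecidableEq Δ] [Finite L] [Finite K]
    (hc : ∀ k i, q (κ k • i) = k • q i) {h : K} {B : Finset Δ}
    (hB : IsBase h B) {BΩ : Finset Ω} (hBΩ : IsBase (κ h) BΩ) (hover : ∀ i ∈ BΩ, q i ∈ B)
    {b : Δ} (hb : b ∈ B) :
    ∑ i ∈ BΩ.filter (fun i => q i = b), pr (κ h) i / pr h (q i) = Nat.card {i : Ω // q i = b} := by
  classical
  have hF : Nat.card {i : Ω // q i = b} = (Finset.univ.filter (fun i : Ω => q i = b)).card := by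
    rw [Nat.card_eq_fintype_card, Fintype.card_subtype]
  rw [hF]
  have hmaps : ∀ i' ∈ Finset.univ.filter (fun i : Ω => q i = b),
      bp hBΩ i' ∈ BΩ.filter (fun i => q i = b) := by
    intro i' hi'
    have h1 := (Finset.mem_filter.1 hi').2
    rw [Finset.mem_filter]
    refine ⟨bp_mem hBΩ i', ?_⟩
    rw [q_bp hc hB hBΩ hover, h1, bp_self hB hb]
  rw [Finset.card_eq_sum_card_fiberwise hmaps]
  apply Finset.sum_congr rfl
  intro i hi
  obtain ⟨hi1, hi2⟩ := Finset.mem_filter.1 hi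
  obtain ⟨m, hm⟩ := pr_dvd hc h i
  have hn' : 0 < pr h (q i) := pr_pos h (q i)
  have hn : 0 < pr (κ h) i := pr_pos (κ h) i
  have hmq : pr (κ h) i / pr h (q i) = m := by
    rw [hm, Nat.mul_div_cancel_left _ hn']
  rw [hmq]
  have himg : (Finset.univ.filter (fun i : Ω => q i = b)).filter (fun i' => bp hBΩ i' = i) =
      (Finset.range m).image (fun k => κ h ^ (pr h (q i) * k) • i) := by
    ext i'
    rw [Finset.mem_filter, Finset.mem_filter, Finset.mem_image]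
    constructor
    · rintro ⟨⟨_, h1⟩, h2⟩
      have h3 := bp_orb hBΩ i'
      rw [h2] at h3
      obtain ⟨k, hk⟩ := mem_orbit_pow (orbit_symm' h3)
      have h4 : κ h ^ (k % pr (κ h) i) • i = i' := by
        rw [hk]
        have h5 := Function.iterate_mod_minimalPeriod_eq (f := fun j : Ω => κ h • j) (x := i)
          (n := k)
        rw [smul_iterate, smul_iterate] at h5
        exact h5
      have h6 : pr h (q i) ∣ k % pr (κ h) i := by
        have h7 : q (κ h ^ (k % pr (κ h) i) • i) = q i := by rw [h4, h1, hi2]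
        rw [pow_compat hc] at h7
        exact (pow_smul_iff h (q i) _).1 h7
      obtain ⟨k', hk'⟩ := h6
      refine ⟨k', ?_, ?_⟩
      · rw [Finset.mem_range]
        have h8 : k % pr (κ h) i < pr (κ h) i := Nat.mod_lt _ hn
        rw [hk'] at h8
        conv_rhs at h8 => rw [hm]
        exact Nat.lt_of_mul_lt_mul_left h8
      · show κ h ^ (pr h (q i) * k') • i = i'
        rw [← hk', h4]
    · rintro ⟨k, _, rfl⟩
      refine ⟨⟨Finset.mem_univ _, ?_⟩, ?_⟩
      · rw [pow_compat hc, (pow_smul_iff h (q i) _).2 (dvd_mul_right _ _), hi2]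
      · exact (bp_uniq hBΩ hi1 (orbit_symm' (pow_mem_orbit (κ h) i _))).symm
  rw [himg, Finset.card_image_of_injOn, Finset.card_range]
  intro k hk k' hk' hkk
  have hk1 : pr h (q i) * k < pr (κ h) i := by
    rw [hm]
    exact Nat.mul_lt_mul_of_pos_left (Finset.mem_range.1 hk) hn'
  have hk2 : pr h (q i) * k' < pr (κ h) i := by
    rw [hm]
    exact Nat.mul_lt_mul_of_pos_left (Finset.mem_range.1 hk') hn'
  have h9 := (Function.iterate_eq_iterate_iff_of_lt_minimalPeriod hk1 hk2).1 (by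
    rw [smul_iterate, smul_iterate]
    exact hkk)
  exact Nat.eq_of_mul_eq_mul_left hn' h9

end overs

/-! ### the value of the extension -/

section value

variable {ℓ : ℕ} {G Ω L Δ K : Type} [Group G] [Finite G] [Fintype Ω] [Group L] [Finite L]
  [MulAction L Ω] [Fintype Δ] [Group K] [Finite K] [MulAction K Δ]

omit [Fintype Δ] in
theorem ex_red [Fact ℓ.Prime] {M : Ideal (integralClosure ℤ ℂ)} [M.IsMaximal]
    (hℓM : (ℓ : integralClosure ℤ ℂ) ∈ M) {q : Ω → Δ} {κ : K →* L}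
    {ι : Wreath G Δ K →* Wreath G Ω L} {P : Subgroup L} (hs : Sit ℓ q κ ι P)
    {h : K} (hcomm : ∀ p ∈ P, p * κ h = κ h * p) {β' : Ω → G → ℂ} (hβ' : ∀ i, β' i ∈ Irr G)
    (hh' : κ h ∈ LL L β') (βd : Δ → G → ℂ) (hβd : ∀ i, βd (q i) = β' i)
    {B : Finset Δ} (hB : IsBase h B) (u : Wreath G Δ K) (hu : u.s = h) :
    IsIntegral ℤ (ex L β' (ι u)⁻¹) ∧ red M (ex L β' (ι u)⁻¹) =
      ∏ b ∈ B, (red M (βd b ((u ^ pr h b).f b)⁻¹)) ^ Nat.card {i : Ω // q i = b} := by
  classical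
  have hι := hs.iota
  have hc := hs.compat
  obtain ⟨BΩ, hBΩ, hover⟩ := exists_base_over hc hB
  have hus : (ι u).s = κ h := by rw [hι, hu]
  have hts : ((ι u)⁻¹).s = (κ h)⁻¹ := by rw [Wreath.inv_s, hus]
  have ht : (ι u)⁻¹ ∈ stX L (triv G Ω) β' := by
    rw [mem_stX_triv hβ']
    intro i
    rw [hts, inv_inv]
    exact LL_smul hβ' hh' i
  have hX := isExt_ext (K := L) (isChars_triv hβ')
  refine ⟨IrrS_integral hX.mem _, ?_⟩
  have hBt : IsBase ((ι u)⁻¹).s BΩ := by rw [hts]; exact isBase_inv hBΩ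
  have hval := hX.value _ ht BΩ hBt
  have h1 : ∀ i ∈ BΩ, red M (β' i (((ι u)⁻¹ ^
      Function.minimalPeriod (fun j : Ω => ((ι u)⁻¹).s • j) i).f i)) =
      (red M (βd (q i) ((u ^ pr h (q i)).f (q i))⁻¹)) ^ (pr (κ h) i / pr h (q i)) := by
    intro i _
    have e1 : Function.minimalPeriod (fun j : Ω => ((ι u)⁻¹).s • j) i = pr (κ h) i := by
      show pr ((ι u)⁻¹).s i = _
      rw [hts, pr_inv]
    obtain ⟨a, ha⟩ := per_over (Fact.out : ℓ.Prime) hc hs.pgroup hs.fib hcomm i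
    have e2 : pr (κ h) i / pr h (q i) = ℓ ^ a := by
      rw [ha, Nat.mul_div_cancel_left _ (pr_pos h (q i))]
    have hfix : h ^ pr h (q i) • q i = q i := (pow_smul_iff h (q i) _).2 dvd_rfl
    have e3 : ((ι u)⁻¹ ^ pr (κ h) i).f i = (((u ^ pr h (q i)).f (q i))⁻¹) ^ (ℓ ^ a) := by
      rw [inv_pow, Wreath.inv_f, pow_s, hus, (pow_smul_iff (κ h) i _).2 dvd_rfl, ← map_pow, hι]
      show ((u ^ pr (κ h) i).f (q i))⁻¹ = _
      rw [ha, pow_f_mul u (q i) _ _ (by rw [hu]; exact hfix), inv_pow]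
    rw [e1, e2, e3, H15.vpow ℓ M hℓM G _ (hβ' i), hβd]
  show red M (ext L (triv G Ω) β' (ι u)⁻¹) = _
  rw [hval, red_prod _ _ (fun i _ => irr_integral (hβ' i) _), Finset.prod_congr rfl h1,
    ← Finset.prod_fiberwise_of_maps_to hover]
  apply Finset.prod_congr rfl
  intro b hb
  rw [← card_fib hc hB hBΩ hover hb, ← Finset.prod_pow_eq_pow_sum]
  apply Finset.prod_congr rfl
  intro i hi
  rw [(Finset.mem_filter.1 hi).2]

end value

end Pool.Agent.Helper79_WRA.H33
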